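import Pool.Agent.H35.KP.Fourier

set_option autoImplicit false

open Finset Function Module
open scoped BigOperators ComplexConjugate

namespace Pool.Agent.H35.KP

open Pool.Agent.H77.KM

variable {p : ℕ} [Fact p.Prime] {V : Type*} [AddCommGroup V] [Module (ZMod p) V] [Fintype V]

/-- Signed sums over an independent finite set are nonzero. -/
lemma signed_sum_ne_zero {E : Type*} [AddCommGroup E] [Module (ZMod p) E]
    {B : Finset E} (hB : LinearIndepOn (ZMod p) id (B : Set E))
    {I J : Finset E} (hI : I ⊆ B) (hJ : J ⊆ B) (hIJ : Disjoint I J)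
    (hne : I.Nonempty ∨ J.Nonempty) : ∑ i ∈ I, i + ∑ i ∈ J, -i ≠ 0 := by
  classical
  intro h0
  have hB' := hB
  rw [linearIndepOn_finset_iff] at hB'
  have h1 := hB' (fun i => (if i ∈ I then 1 else 0) + (if i ∈ J then -1 else 0)) (by
    simp only [id, add_smul, ite_smul, one_smul, zero_smul, neg_smul]
    rw [Finset.sum_add_distrib, Finset.sum_ite_mem, Finset.sum_ite_mem,
      Finset.inter_eq_right.mpr hI, Finset.inter_eq_right.mpr hJ]
    exact h0)
  rcases hne with ⟨i, hi⟩ | ⟨i, hi⟩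
  · have h2 := h1 i (hI hi)
    have h3 : i ∉ J := Finset.disjoint_left.mp hIJ hi
    simp [hi, h3] at h2
  · have h2 := h1 i (hJ hi)
    have h3 : i ∉ I := fun h => Finset.disjoint_left.mp hIJ h hi
    simp [hi, h3] at h2

/-- The Riesz product identity for independent functionals. -/
lemma riesz {B : Finset (Dual (ZMod p) V)}
    (hB : LinearIndepOn (ZMod p) id (B : Set (Dual (ZMod p) V)))
    (c r : ℝ) (s : Dual (ZMod p) V → ℂ) :
    𝔼 x, ∏ φ ∈ B, (c + r * (s φ * chi φ x).re) = c ^ B.card := by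
  classical
  have h1 : ∀ x : V, ((∏ φ ∈ B, (c + r * (s φ * chi φ x).re) : ℝ) : ℂ)
      = ∑ t ∈ B.powerset, ∑ u ∈ t.powerset, ((c : ℂ) ^ u.card *
          ((∏ φ ∈ t \ u, ((r : ℂ) / 2 * s φ)) * ∏ φ ∈ B \ t, ((r : ℂ) / 2 * conj (s φ)))) *
          chi (∑ φ ∈ t \ u, φ + ∑ φ ∈ B \ t, -φ) x := by
    intro x
    push_cast
    have e1 : ∀ φ ∈ B, (c : ℂ) + r * ((s φ * chi φ x).re : ℂ)
        = ((c : ℂ) + ((r : ℂ) / 2 * s φ) * chi φ x) + ((r : ℂ) / 2 * conj (s φ)) * chi (-φ) x := by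
      intro φ _
      have e2 : ((s φ * chi φ x).re : ℂ) = (s φ * chi φ x + conj (s φ * chi φ x)) / 2 :=
        Complex.re_eq_add_conj _
      rw [e2, map_mul, chi_neg_left]
      ring
    rw [Finset.prod_congr rfl e1, Finset.prod_add]
    refine Finset.sum_congr rfl (fun t _ => ?_)
    rw [Finset.prod_add, Finset.sum_mul]
    refine Finset.sum_congr rfl (fun u _ => ?_)
    rw [Finset.prod_const, Finset.prod_mul_distrib, Finset.prod_mul_distrib (s := B \ t),
      prod_chi (t \ u) (fun φ => φ) x, prod_chi (B \ t) (fun φ => -φ) x, chi_add_left]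
    ring
  have h2 : ∀ t ∈ B.powerset, ∀ u ∈ t.powerset, 𝔼 x : V, ((c : ℂ) ^ u.card *
          ((∏ φ ∈ t \ u, ((r : ℂ) / 2 * s φ)) * ∏ φ ∈ B \ t, ((r : ℂ) / 2 * conj (s φ)))) *
          chi (∑ φ ∈ t \ u, φ + ∑ φ ∈ B \ t, -φ) x
      = if t = B ∧ u = B then (c : ℂ) ^ B.card else 0 := by
    intro t ht u hu
    rw [Finset.mem_powerset] at ht hu
    rw [← Finset.mul_expect]
    split_ifs with h
    · obtain ⟨rfl, rfl⟩ := h
      simp only [Finset.sdiff_self, Finset.prod_empty, Finset.sum_empty, add_zero,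
        chi_zero_left, mul_one]
      rw [Finset.expect_const Finset.univ_nonempty, mul_one]
    · have hne : (t \ u).Nonempty ∨ (B \ t).Nonempty := by
        rw [Finset.sdiff_nonempty, Finset.sdiff_nonempty]
        by_contra hcon
        push Not at hcon
        obtain ⟨h3, h4⟩ := hcon
        have h5 : t = B := Finset.Subset.antisymm ht h4
        have h6 : u = t := Finset.Subset.antisymm hu h3
        exact h ⟨h5, by rw [h6, h5]⟩
      rw [expect_chi_eq_zero (signed_sum_ne_zero hB (Finset.sdiff_subset.trans ht)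
        Finset.sdiff_subset ?_ hne), mul_zero]
      rw [Finset.disjoint_left]
      intro i hi hi'
      rw [Finset.mem_sdiff] at hi hi'
      exact hi'.2 hi.1
  have key : ((𝔼 x, ∏ φ ∈ B, (c + r * (s φ * chi φ x).re) : ℝ) : ℂ) = ((c ^ B.card : ℝ) : ℂ) := by
    rw [Complex.ofReal_expect]
    simp only [h1]
    rw [Finset.expect_sum_comm]
    have h3 : ∀ t ∈ B.powerset, 𝔼 x : V, ∑ u ∈ t.powerset, ((c : ℂ) ^ u.card *
          ((∏ φ ∈ t \ u, ((r : ℂ) / 2 * s φ)) * ∏ φ ∈ B \ t, ((r : ℂ) / 2 * conj (s φ)))) *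
          chi (∑ φ ∈ t \ u, φ + ∑ φ ∈ B \ t, -φ) x
        = if t = B then (c : ℂ) ^ B.card else 0 := by
      intro t ht
      rw [Finset.expect_sum_comm, Finset.sum_congr rfl (h2 t ht)]
      split_ifs with h
      · subst h
        simp only [true_and]
        rw [Finset.sum_ite_eq' t.powerset t]
        simp
      · simp only [h, false_and, if_false, Finset.sum_const_zero]
    rw [Finset.sum_congr rfl h3, Finset.sum_ite_eq' B.powerset B]
    simp
  exact_mod_cast key

/-- Chang's bound for an independent set of large Fourier coefficients. -/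
lemma chang_indep (T : Finset V) (hT : T.Nonempty) {K : ℕ}
    (hd : (1 / 2 : ℝ) ^ K ≤ (T.card : ℝ) / Fintype.card V)
    {B : Finset (Dual (ZMod p) V)}
    (hB : LinearIndepOn (ZMod p) id (B : Set (Dual (ZMod p) V)))
    (hlarge : ∀ φ ∈ B, 1 / 2 ≤ ‖uhat T φ‖) : B.card ≤ 8 * K := by
  classical
  set s : Dual (ZMod p) V → ℂ := fun φ => conj (uhat T φ) / (‖uhat T φ‖ : ℂ) with hs
  have hs1 : ∀ φ ∈ B, (s φ * uhat T φ).re = ‖uhat T φ‖ := by
    intro φ hφ
    have hpos : 0 < ‖uhat T φ‖ := lt_of_lt_of_le (by norm_num) (hlarge φ hφ)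
    have hne : (‖uhat T φ‖ : ℂ) ≠ 0 := by exact_mod_cast hpos.ne'
    have : s φ * uhat T φ = (‖uhat T φ‖ : ℂ) := by
      simp only [hs]
      rw [div_mul_eq_mul_div, mul_comm, Complex.mul_conj', sq, mul_div_assoc, div_self hne,
        mul_one]
    rw [this, Complex.ofReal_re]
  have hs2 : ∀ φ x, |(s φ * chi φ x).re| ≤ 1 := by
    intro φ x
    refine le_trans (Complex.abs_re_le_norm _) ?_
    rw [norm_mul, norm_chi, mul_one]
    simp only [hs]
    rw [norm_div, RCLike.norm_conj, Complex.norm_real, norm_norm]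
    exact div_self_le_one _
  set Y : V → ℝ := fun x => 1 / 2 * ∑ φ ∈ B, (s φ * chi φ x).re with hY
  -- the exponential moment over the whole space
  have hexp : ∀ x, Real.exp (Y x)
      ≤ ∏ φ ∈ B, (Real.cosh (1 / 2) + Real.sinh (1 / 2) * (s φ * chi φ x).re) := by
    intro x
    simp only [hY]
    rw [Finset.mul_sum, Real.exp_sum]
    refine Finset.prod_le_prod (fun φ _ => (Real.exp_pos _).le) (fun φ _ => ?_)
    have := exp_mul_le_cosh_add (1 / 2) _ (hs2 φ x)
    rwa [mul_comm (Real.sinh (1 / 2))]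
  have hall : 𝔼 x, Real.exp (Y x) ≤ Real.cosh (1 / 2) ^ B.card := by
    refine le_trans (Finset.expect_le_expect (fun x _ => hexp x)) ?_
    rw [riesz hB]
  have hYT : 𝔼 x ∈ T, Y x = 1 / 2 * ∑ φ ∈ B, ‖uhat T φ‖ := by
    simp only [hY]
    rw [← Finset.mul_expect, Finset.expect_sum_comm]
    congr 1
    refine Finset.sum_congr rfl (fun φ hφ => ?_)
    rw [← hs1 φ hφ, ← Complex.re_expect, ← Finset.mul_expect]
    rfl
  have hlow : (B.card : ℝ) / 4 ≤ 𝔼 x ∈ T, Y x := by
    rw [hYT]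
    have : (B.card : ℝ) * (1 / 2) ≤ ∑ φ ∈ B, ‖uhat T φ‖ := by
      rw [← nsmul_eq_mul]
      exact Finset.card_nsmul_le_sum _ _ _ hlarge
    linarith
  have h1 : Real.exp ((B.card : ℝ) / 4) ≤ (2 : ℝ) ^ K * Real.exp ((B.card : ℝ) * (1 / 8)) := by
    calc Real.exp ((B.card : ℝ) / 4) ≤ Real.exp (𝔼 x ∈ T, Y x) := Real.exp_le_exp.mpr hlow
      _ ≤ 𝔼 x ∈ T, Real.exp (Y x) := exp_expect_le hT _
      _ ≤ ((T.card : ℝ) / Fintype.card V)⁻¹ * 𝔼 x, Real.exp (Y x) :=
          expect_finset_le_univ hT _ (fun x => (Real.exp_pos _).le)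
      _ ≤ (2 : ℝ) ^ K * Real.exp ((B.card : ℝ) * (1 / 8)) := by
          refine mul_le_mul ?_ (le_trans hall ?_)
            (Finset.expect_nonneg (fun x _ => (Real.exp_pos _).le)) (by positivity)
          · have := inv_anti₀ (by positivity) hd
            refine le_trans this (le_of_eq ?_)
            rw [one_div, inv_pow, inv_inv]
          · rw [Real.exp_nat_mul]
            refine pow_le_pow_left₀ (by positivity) ?_ _
            refine le_trans (Real.cosh_le_exp_half_sq _) (le_of_eq ?_)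
            congr 1
            norm_num
  have h2 : (2 : ℝ) ^ K ≤ Real.exp K := by
    have : (2 : ℝ) ≤ Real.exp 1 := by linarith [Real.exp_one_gt_d9]
    calc (2 : ℝ) ^ K ≤ Real.exp 1 ^ K := pow_le_pow_left₀ (by norm_num) this K
      _ = Real.exp K := by rw [← Real.exp_nat_mul, mul_one]
  have h3 : Real.exp ((B.card : ℝ) / 4) ≤ Real.exp (K + (B.card : ℝ) * (1 / 8)) := by
    rw [Real.exp_add]
    exact le_trans h1 (mul_le_mul_of_nonneg_right h2 (Real.exp_pos _).le)
  have h4 := Real.exp_le_exp.mp h3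
  have h5 : (B.card : ℝ) ≤ 8 * K := by linarith
  exact_mod_cast h5

/-- Chang's theorem: the large spectrum is contained in a subspace of small dimension. -/
lemma chang (T : Finset V) (hT : T.Nonempty) {K : ℕ}
    (hd : (1 / 2 : ℝ) ^ K ≤ (T.card : ℝ) / Fintype.card V) :
    ∃ W : Submodule (ZMod p) (Dual (ZMod p) V), finrank (ZMod p) W ≤ 8 * K ∧
      ∀ φ, 1 / 2 ≤ ‖uhat T φ‖ → φ ∈ W := by
  classical
  obtain ⟨b, hb, hspan, hind⟩ := exists_linearIndependent (ZMod p)
    {φ : Dual (ZMod p) V | 1 / 2 ≤ ‖uhat T φ‖}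
  have : Finite (Dual (ZMod p) V) := Finite.of_injective (fun φ => (φ : V → ZMod p))
    DFunLike.coe_injective
  letI : Fintype b := Fintype.ofFinite _
  refine ⟨Submodule.span (ZMod p) b, ?_, ?_⟩
  · rw [finrank_span_set_eq_card hind]
    refine chang_indep T hT hd (B := b.toFinset) ?_ ?_
    · rw [Set.coe_toFinset]; exact hind
    · intro φ hφ
      rw [Set.mem_toFinset] at hφ
      exact hb hφ
  · intro φ hφ
    rw [hspan]
    exact Submodule.subset_span hφ

end Pool.Agent.H35.KP
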