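import Pool.Agent.H35.KP.CS

set_option autoImplicit false

open Finset Function Module
open scoped BigOperators ComplexConjugate

namespace Pool.Agent.H35.KP

open Pool.Agent.H77.KM

variable {p : ℕ} [Fact p.Prime] {V : Type*} [AddCommGroup V] [Module (ZMod p) V]

/-- The complex character attached to a linear functional. -/
noncomputable def chi (φ : Dual (ZMod p) V) (x : V) : ℂ := ZMod.stdAddChar (φ x)

lemma chi_add (φ : Dual (ZMod p) V) (x y : V) : chi φ (x + y) = chi φ x * chi φ y := by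
  simp only [chi, map_add, AddChar.map_add_eq_mul]

lemma chi_add_left (φ ψ : Dual (ZMod p) V) (x : V) : chi (φ + ψ) x = chi φ x * chi ψ x := by
  simp only [chi, LinearMap.add_apply, AddChar.map_add_eq_mul]

lemma chi_zero (φ : Dual (ZMod p) V) : chi φ 0 = 1 := by simp [chi]

lemma chi_zero_left (x : V) : chi (0 : Dual (ZMod p) V) x = 1 := by simp [chi]

lemma chi_neg (φ : Dual (ZMod p) V) (x : V) : chi φ (-x) = conj (chi φ x) := by
  simp only [chi, map_neg]
  exact AddChar.map_neg_eq_conj _ _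

lemma chi_neg_left (φ : Dual (ZMod p) V) (x : V) : chi (-φ) x = conj (chi φ x) := by
  simp only [chi, LinearMap.neg_apply]
  exact AddChar.map_neg_eq_conj _ _

lemma norm_chi (φ : Dual (ZMod p) V) (x : V) : ‖chi φ x‖ = 1 := by
  simp only [chi]
  exact AddChar.norm_apply _ _

lemma chi_mul_conj (φ : Dual (ZMod p) V) (x : V) : chi φ x * conj (chi φ x) = 1 := by
  rw [Complex.mul_conj', norm_chi]
  norm_num

lemma chi_ne_one {φ : Dual (ZMod p) V} {x : V} (h : φ x ≠ 0) : chi φ x ≠ 1 := by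
  intro h1
  apply h
  apply ZMod.injective_stdAddChar
  rw [AddChar.map_zero_eq_one]
  exact h1

lemma prod_chi {ι : Type*} (I : Finset ι) (φ : ι → Dual (ZMod p) V) (x : V) :
    ∏ i ∈ I, chi (φ i) x = chi (∑ i ∈ I, φ i) x := by
  classical
  induction I using Finset.induction_on with
  | empty => simp [chi_zero_left]
  | insert i I hi ih => rw [Finset.prod_insert hi, Finset.sum_insert hi, chi_add_left, ih]

lemma cexpect_add_right [Fintype V] (f : V → ℂ) (t : V) : 𝔼 x, f (x + t) = 𝔼 x, f x :=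
  Fintype.expect_equiv (Equiv.addRight t) _ _ (fun _ => rfl)

lemma expect_chi_eq_zero [Fintype V] {φ : Dual (ZMod p) V} (hφ : φ ≠ 0) :
    𝔼 x, chi φ x = 0 := by
  obtain ⟨x0, hx0⟩ : ∃ x, φ x ≠ 0 := by
    by_contra h
    push Not at h
    exact hφ (LinearMap.ext h)
  have h1 := chi_ne_one hx0
  have h2 : 𝔼 x, chi φ x = (𝔼 x, chi φ x) * chi φ x0 := by
    conv_lhs => rw [← cexpect_add_right _ x0]
    simp only [chi_add]
    rw [Finset.expect_mul]
  have h3 : (𝔼 x, chi φ x) * (chi φ x0 - 1) = 0 := by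
    rw [mul_sub, ← h2, mul_one, sub_self]
  exact (mul_eq_zero.mp h3).resolve_right (sub_ne_zero.mpr h1)

section DualSum

variable [Fintype V] [Fintype (Dual (ZMod p) V)]

lemma card_dual : Fintype.card (Dual (ZMod p) V) = Fintype.card V := by
  rw [Module.card_eq_pow_finrank (K := ZMod p) (V := V),
    Module.card_eq_pow_finrank (K := ZMod p) (V := Dual (ZMod p) V), Subspace.dual_finrank_eq]

lemma sum_chi_eq_zero {x : V} (hx : x ≠ 0) : ∑ φ : Dual (ZMod p) V, chi φ x = 0 := by
  obtain ⟨ψ, hψ⟩ : ∃ ψ : Dual (ZMod p) V, ψ x ≠ 0 := by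
    by_contra h
    push Not at h
    exact hx ((Module.forall_dual_apply_eq_zero_iff (ZMod p) x).mp h)
  have h1 := chi_ne_one hψ
  have h2 : ∑ φ : Dual (ZMod p) V, chi φ x = (∑ φ : Dual (ZMod p) V, chi φ x) * chi ψ x := by
    rw [Finset.sum_mul]
    simp only [← chi_add_left]
    exact (Fintype.sum_equiv (Equiv.addRight ψ) _ _ (fun _ => rfl)).symm
  have h3 : (∑ φ : Dual (ZMod p) V, chi φ x) * (chi ψ x - 1) = 0 := by
    rw [mul_sub, ← h2, mul_one, sub_self]
  exact (mul_eq_zero.mp h3).resolve_right (sub_ne_zero.mpr h1)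

lemma sum_chi_zero : ∑ φ : Dual (ZMod p) V, chi φ (0 : V) = Fintype.card V := by
  simp only [chi_zero, Finset.sum_const, Finset.card_univ, card_dual, nsmul_eq_mul, mul_one]

end DualSum

/-- The Fourier transform. -/
noncomputable def hat [Fintype V] (F : V → ℝ) (φ : Dual (ZMod p) V) : ℂ :=
  𝔼 x, (F x : ℂ) * conj (chi φ x)

/-- The Fourier coefficient of the uniform measure on `S`. -/
noncomputable def uhat (S : Finset V) (φ : Dual (ZMod p) V) : ℂ := 𝔼 a ∈ S, chi φ a

lemma conj_expect {ι : Type*} (s : Finset ι) (f : ι → ℂ) :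
    conj (𝔼 i ∈ s, f i) = 𝔼 i ∈ s, conj (f i) := by
  rw [Finset.expect_eq_sum_div_card, Finset.expect_eq_sum_div_card, map_div₀, map_sum, map_natCast]

lemma hat_avg [Fintype V] (S : Finset V) (F : V → ℝ) (φ : Dual (ZMod p) V) :
    hat (avg S F) φ = uhat S φ * hat F φ := by
  have h1 : hat (avg S F) φ = 𝔼 a ∈ S, 𝔼 x, (F (x + a) : ℂ) * conj (chi φ x) := by
    unfold hat avg
    rw [Finset.expect_comm]
    refine Finset.expect_congr rfl (fun x _ => ?_)
    rw [Complex.ofReal_expect, Finset.expect_mul]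
  have h2 : ∀ a ∈ S, 𝔼 x, (F (x + a) : ℂ) * conj (chi φ x) = chi φ a * hat F φ := by
    intro a _
    have h3 : ∀ x, (F (x + a) : ℂ) * conj (chi φ x)
        = chi φ a * ((F (x + a) : ℂ) * conj (chi φ (x + a))) := by
      intro x
      rw [chi_add, map_mul]
      calc (F (x + a) : ℂ) * conj (chi φ x)
          = (F (x + a) : ℂ) * conj (chi φ x) * (chi φ a * conj (chi φ a)) := by
            rw [chi_mul_conj, mul_one]
        _ = _ := by ring
    simp only [h3]
    rw [← Finset.mul_expect, cexpect_add_right (fun x => (F x : ℂ) * conj (chi φ x)) a]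
    rfl
  rw [h1, Finset.expect_congr rfl h2, ← Finset.expect_mul]
  rfl

lemma hat_navg [Fintype V] (S : Finset V) (F : V → ℝ) (φ : Dual (ZMod p) V) :
    hat (navg S F) φ = conj (uhat S φ) * hat F φ := by
  have h1 : hat (navg S F) φ = 𝔼 a ∈ S, 𝔼 x, (F (x - a) : ℂ) * conj (chi φ x) := by
    unfold hat navg
    rw [Finset.expect_comm]
    refine Finset.expect_congr rfl (fun x _ => ?_)
    rw [Complex.ofReal_expect, Finset.expect_mul]
  have h2 : ∀ a ∈ S, 𝔼 x, (F (x - a) : ℂ) * conj (chi φ x) = conj (chi φ a) * hat F φ := by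
    intro a _
    have h3 : ∀ x, (F (x - a) : ℂ) * conj (chi φ x)
        = conj (chi φ a) * ((F (x + -a) : ℂ) * conj (chi φ (x + -a))) := by
      intro x
      rw [chi_add, map_mul, chi_neg, Complex.conj_conj, sub_eq_add_neg]
      calc (F (x + -a) : ℂ) * conj (chi φ x)
          = (F (x + -a) : ℂ) * conj (chi φ x) * (chi φ a * conj (chi φ a)) := by
            rw [chi_mul_conj, mul_one]
        _ = _ := by ring
    simp only [h3]
    rw [← Finset.mul_expect, cexpect_add_right (fun x => (F x : ℂ) * conj (chi φ x)) (-a)]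
    rfl
  rw [h1, Finset.expect_congr rfl h2, ← Finset.expect_mul]
  unfold uhat
  rw [conj_expect]

lemma hat_davg_iter [Fintype V] (T : Finset V) (F : V → ℝ) (φ : Dual (ZMod p) V) (k : ℕ) :
    hat ((davg T)^[k] F) φ = (uhat T φ * conj (uhat T φ)) ^ k * hat F φ := by
  induction k generalizing F with
  | zero => simp
  | succ k ih =>
    rw [iterate_succ_apply, ih, davg, hat_avg, hat_navg]
    ring

lemma norm_uhat_le (S : Finset V) (hS : S.Nonempty) (φ : Dual (ZMod p) V) : ‖uhat S φ‖ ≤ 1 := by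
  refine le_trans (RCLike.norm_expect_le (K := ℂ)) ?_
  exact Finset.expect_le hS (fun a _ => (norm_chi φ a).le)

lemma norm_hat_le [Fintype V] {F : V → ℝ} (h0 : ∀ x, 0 ≤ F x) (h1 : ∀ x, F x ≤ 1)
    (φ : Dual (ZMod p) V) : ‖hat F φ‖ ≤ 1 := by
  refine le_trans (RCLike.norm_expect_le (K := ℂ)) ?_
  refine Finset.expect_le Finset.univ_nonempty (fun x _ => ?_)
  rw [norm_mul, RCLike.norm_conj, norm_chi, mul_one, Complex.norm_real, Real.norm_eq_abs,
    abs_of_nonneg (h0 x)]
  exact h1 x

section Inversion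

variable [Fintype V] [Fintype (Dual (ZMod p) V)]

lemma inversion (F : V → ℝ) (x : V) : ∑ φ : Dual (ZMod p) V, hat F φ * chi φ x = F x := by
  classical
  have hN : (Fintype.card V : ℂ) ≠ 0 := by exact_mod_cast Fintype.card_ne_zero
  have h1 : ∀ φ : Dual (ZMod p) V, hat F φ * chi φ x
      = (∑ y, (F y : ℂ) * chi φ (x - y)) / Fintype.card V := by
    intro φ
    unfold hat
    rw [Finset.expect_eq_sum_div_card, Finset.card_univ, div_mul_eq_mul_div, Finset.sum_mul]
    congr 1
    refine Finset.sum_congr rfl (fun y _ => ?_)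
    rw [sub_eq_add_neg, chi_add, chi_neg]
    ring
  simp only [h1]
  rw [← Finset.sum_div, Finset.sum_comm]
  have h2 : ∀ y, ∑ φ : Dual (ZMod p) V, (F y : ℂ) * chi φ (x - y)
      = if y = x then (F x : ℂ) * Fintype.card V else 0 := by
    intro y
    rw [← Finset.mul_sum]
    split_ifs with h
    · rw [h, sub_self, sum_chi_zero]
    · rw [sum_chi_eq_zero, mul_zero]
      intro h0
      exact h (sub_eq_zero.mp h0).symm
  simp only [h2]
  rw [Finset.sum_ite_eq' Finset.univ x]
  simp only [Finset.mem_univ, if_true]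
  field_simp

lemma expect_finset_eq_sum_hat (S : Finset V) (F : V → ℝ) :
    ((𝔼 x ∈ S, F x : ℝ) : ℂ) = ∑ φ : Dual (ZMod p) V, hat F φ * uhat S φ := by
  have h1 : ∀ x ∈ S, (F x : ℂ) = ∑ φ : Dual (ZMod p) V, hat F φ * chi φ x :=
    fun x _ => (inversion F x).symm
  rw [Complex.ofReal_expect, Finset.expect_congr rfl h1, Finset.expect_sum_comm]
  refine Finset.sum_congr rfl (fun φ _ => ?_)
  rw [← Finset.mul_expect]
  rfl

lemma parseval (S : Finset V) (hS : S.Nonempty) :
    ∑ φ : Dual (ZMod p) V, ‖uhat S φ‖ ^ 2 = ((S.card : ℝ) / Fintype.card V)⁻¹ := by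
  classical
  have hc : (S.card : ℂ) ≠ 0 := by exact_mod_cast hS.card_ne_zero
  have key : ((∑ φ : Dual (ZMod p) V, ‖uhat S φ‖ ^ 2 : ℝ) : ℂ)
      = ((((S.card : ℝ) / Fintype.card V)⁻¹ : ℝ) : ℂ) := by
    have h1 : ∀ φ : Dual (ZMod p) V, ((‖uhat S φ‖ : ℂ)) ^ 2
        = 𝔼 a ∈ S, 𝔼 b ∈ S, chi φ (a - b) := by
      intro φ
      rw [← Complex.mul_conj']
      unfold uhat
      rw [conj_expect, Finset.expect_mul_expect]
      refine Finset.expect_congr rfl (fun a _ => Finset.expect_congr rfl (fun b _ => ?_))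
      rw [sub_eq_add_neg, chi_add, chi_neg]
    push_cast
    simp only [h1]
    rw [← Finset.expect_sum_comm]
    have h2 : ∀ a ∈ S, ∑ φ : Dual (ZMod p) V, 𝔼 b ∈ S, chi φ (a - b)
        = (Fintype.card V : ℂ) / S.card := by
      intro a ha
      rw [← Finset.expect_sum_comm]
      have h3 : ∀ b ∈ S, ∑ φ : Dual (ZMod p) V, chi φ (a - b)
          = if b = a then (Fintype.card V : ℂ) else 0 := by
        intro b _
        split_ifs with h
        · rw [h, sub_self, sum_chi_zero]
        · rw [sum_chi_eq_zero]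
          intro h0
          exact h (sub_eq_zero.mp h0).symm
      rw [Finset.expect_congr rfl h3, Finset.expect_eq_sum_div_card, Finset.sum_ite_eq' S a]
      simp only [ha, if_true]
    rw [Finset.expect_congr rfl h2, Finset.expect_const hS, inv_div]
  exact_mod_cast key

end Inversion

end Pool.Agent.H35.KP
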