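import Pool.Agent.H35.KP.Pot

set_option autoImplicit false

open Finset Function Module
open scoped BigOperators

namespace Pool.Agent.H35.KP

open Pool.Agent.H77.KM

universe u

variable {V : Type u} [AddCommGroup V] [Module (ZMod 3) V] [Fintype V]

/-- The points `y` with `y + W` contained in `Y`. -/
def SW (Y : Set V) (W : Submodule (ZMod 3) V) : Set V := {y | ∀ w ∈ W, y + w ∈ Y}

lemma zmod3_cases : ∀ c : ZMod 3, c = 0 ∨ c = 1 ∨ c = -1 := by decide

lemma add3 (x : V) : x + x + x = 0 := by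
  have h : (3 : ZMod 3) • x = 0 := by
    have : (3 : ZMod 3) = 0 := by decide
    rw [this, zero_smul]
  have h2 : (3 : ZMod 3) = 1 + 1 + 1 := by decide
  rw [h2, add_smul, add_smul, one_smul] at h
  exact h

lemma add_self3 (x : V) : x + x = -x := by
  have := add3 x
  rw [← add_eq_zero_iff_eq_neg]
  exact this

/-- The closure property: if two cosets of `W` are blue, their difference is a coset of one
colour. -/
theorem close3 (R B : Set V) (hcov : ∀ v : V, v ≠ 0 → v ∈ R ∨ v ∈ B) (hRB : ∀ v ∈ R, v ∉ B)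
    (hB : ∀ v ∈ B, -v ∈ B) (hrule : ∀ x ∈ B, ∀ y ∈ B, x + y ∈ B → x ≠ y → x - y ∈ B)
    (W : Submodule (ZMod 3) V) {s s' : V} (hs : s ∈ SW B W) (hs' : s' ∈ SW B W)
    (hz : s - s' ∉ W) (hzB : s - s' ∈ B) : s - s' ∈ SW B W := by
  intro d hd
  have hne : ∀ d ∈ W, s - s' + d ≠ 0 := by
    intro d hd h0
    apply hz
    rw [add_eq_zero_iff_eq_neg] at h0
    rw [h0]
    exact W.neg_mem hd
  by_contra hcon
  have hR : s - s' + d ∈ R := (hcov _ (hne d hd)).resolve_right hcon
  -- the coset `s + s' + W` has no blue point and does not contain zero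
  have h1 : ∀ e ∈ W, s + s' + e ∉ B ∧ s + s' + e ≠ 0 := by
    intro e he
    set a : V := -(d + e) with ha
    set b : V := d - e with hb
    have haW : a ∈ W := W.neg_mem (W.add_mem hd he)
    have hbW : b ∈ W := W.sub_mem hd he
    have hX : s + a ∈ B := hs a haW
    have hY : s' + b ∈ B := hs' b hbW
    have e1 : s + a - (s' + b) = s - s' + d := by
      have h3 := add3 d
      rw [ha, hb]
      calc s + -(d + e) - (s' + (d - e)) = s - s' + d - (d + d + d) := by abel
        _ = s - s' + d := by rw [h3, sub_zero]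
    have e2 : s + a + (s' + b) = s + s' + e := by
      have h3 := add3 e
      rw [ha, hb]
      calc s + -(d + e) + (s' + (d - e)) = s + s' + e - (e + e + e) := by abel
        _ = s + s' + e := by rw [h3, sub_zero]
    have hXY : s + a ≠ s' + b := by
      intro h
      have : s + a - (s' + b) = 0 := sub_eq_zero.mpr h
      rw [e1] at this
      exact hne d hd this
    constructor
    · intro h
      rw [← e2] at h
      have := hrule _ hX _ hY h hXY
      rw [e1] at this
      exact hRB _ hR this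
    · intro h
      rw [← e2, add_eq_zero_iff_eq_neg] at h
      have h2 : s + a - (s' + b) = -(s + a) := by
        have h3 : s' + b = -(s + a) := by rw [h, neg_neg]
        rw [h3, sub_neg_eq_add, add_self3]
      rw [e1] at h2
      apply hRB _ hR
      rw [h2]
      exact hB _ hX
  -- now `s - s'` itself cannot be blue
  have h2 := h1 0 W.zero_mem
  rw [add_zero] at h2
  have hX : s ∈ B := by have := hs 0 W.zero_mem; rwa [add_zero] at this
  have hY : s' ∈ B := by have := hs' 0 W.zero_mem; rwa [add_zero] at this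
  apply h2.1
  have := hrule s hX (-s') (hB _ hY) (by rwa [← sub_eq_add_neg]) (by
    intro h
    apply h2.2
    rw [h, neg_add_cancel])
  rwa [sub_neg_eq_add] at this

/-- The cost of one step of the growth argument. -/
def cost (t : ℕ) : ℕ :=
  14 * (4 * t + 6) * stepDim (4 * t + 6) + 14 * (2 * t + 1) * stepDim (2 * t + 1)

/-- The growth argument: a blue subspace `W` together with a coset on which the points `y`
with `y + W` blue are dense grows by one dimension. -/
theorem grow (R B : Set V) (h0B : (0 : V) ∉ B) (hcov : ∀ v : V, v ≠ 0 → v ∈ R ∨ v ∈ B)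
    (hRB : ∀ v ∈ R, v ∉ B)
    (hB : ∀ v ∈ B, -v ∈ B) (hrule : ∀ x ∈ B, ∀ y ∈ B, x + y ∈ B → x ≠ y → x - y ∈ B)
    (t : ℕ) (ht : 1 ≤ t)
    (hdB : ∀ H : Submodule (ZMod 3) V, t ≤ finrank (ZMod 3) H →
      (1 / 2 : ℝ) ^ (2 * t) ≤ dens H B 0)
    (j : ℕ) (hj : j ≤ t) (hbig : 5 * t + 7 + j * cost t ≤ finrank (ZMod 3) V) :
    ∃ (W H : Submodule (ZMod 3) V) (y : V), finrank (ZMod 3) W = j ∧
      (∀ w ∈ W, w ≠ 0 → w ∈ B) ∧ finrank (ZMod 3) V ≤ finrank (ZMod 3) H + j * cost t ∧
      (1 / 2 : ℝ) ^ (4 * t + 6) ≤ dens H (SW B W) y := by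
  classical
  induction j with
  | zero =>
    refine ⟨⊥, ⊤, 0, finrank_bot _ _, ?_, ?_, ?_⟩
    · intro w hw hw0
      exact absurd ((Submodule.mem_bot _).mp hw) hw0
    · rw [finrank_top]; omega
    · have h1 : (1 / 2 : ℝ) ^ (2 * t) ≤ dens (⊤ : Submodule (ZMod 3) V) B 0 :=
        hdB ⊤ (by rw [finrank_top]; omega)
      have h2 : B ⊆ SW B (⊥ : Submodule (ZMod 3) V) := by
        intro v hv w hw
        rw [(Submodule.mem_bot _).mp hw, add_zero]
        exact hv
      have h3 : (1 / 2 : ℝ) ^ (4 * t + 6) ≤ (1 / 2) ^ (2 * t) :=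
        pow_le_pow_of_le_one (by norm_num) (by norm_num) (by omega)
      exact le_trans h3 (le_trans h1 (dens_mono _ h2 0))
  | succ j ih =>
    have hc : (j + 1) * cost t = j * cost t + cost t := by ring
    rw [hc] at hbig
    obtain ⟨W, H, y, hWj, hWB, hcod, hd⟩ := ih (by omega) (by omega)
    -- first application of popularity
    obtain ⟨H1, hle1, hcod1, y1, hα1, hun1⟩ := popular (SW B W) (d := 4 * t + 6) (by omega) H y hd
    have hcost : cost t = 14 * (4 * t + 6) * stepDim (4 * t + 6)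
      + 14 * (2 * t + 1) * stepDim (2 * t + 1) := rfl
    have hdim1 : 5 * t + 7 + 14 * (2 * t + 1) * stepDim (2 * t + 1) ≤ finrank (ZMod 3) H1 := by
      omega
    -- small subspaces
    have hsmall : ∀ (W' H' : Submodule (ZMod 3) V) (x : V), finrank (ZMod 3) W' ≤ t →
        5 * t + 7 ≤ finrank (ZMod 3) H' → dens H' (W' : Set V) x ≤ (1 / 2) ^ (4 * t + 6) := by
      intro W' H' x hW' hH'
      refine le_trans (dens_subspace_le H' W' x) ?_
      rw [div_le_iff₀ (by positivity)]
      push_cast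
      have h1 : (3 : ℝ) ^ (5 * t + 7) ≤ 3 ^ finrank (ZMod 3) H' :=
        pow_le_pow_right₀ (by norm_num) hH'
      have h2 : (3 : ℝ) ^ finrank (ZMod 3) W' ≤ 3 ^ t := pow_le_pow_right₀ (by norm_num) hW'
      have h3 : (3 : ℝ) ^ t ≤ (1 / 2 : ℝ) ^ (4 * t + 6) * 3 ^ (5 * t + 7) := by
        have e1 : (3 : ℝ) ^ (5 * t + 7) = 3 ^ (4 * t + 6) * (3 ^ t * 3) := by
          rw [← pow_succ, ← pow_add]; congr 1; ring
        rw [e1, ← mul_assoc, ← mul_pow]
        have h4 : (1 : ℝ) ≤ (1 / 2 * 3) ^ (4 * t + 6) := one_le_pow₀ (by norm_num)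
        have h5 : (0 : ℝ) < 3 ^ t := by positivity
        nlinarith
      have h4 : (1 / 2 : ℝ) ^ (4 * t + 6) * 3 ^ (5 * t + 7)
          ≤ (1 / 2 : ℝ) ^ (4 * t + 6) * 3 ^ finrank (ZMod 3) H' :=
        mul_le_mul_of_nonneg_left h1 (by positivity)
      linarith
    have hposα : (0 : ℝ) < (1 / 2) ^ (4 * t + 6) := by positivity
    -- blue popular differences are in `SW B W`
    have hclose : ∀ (H' : Submodule (ZMod 3) V) (x z : V), z ∈ B → z ∉ W →
        0 < dens H' (SW B W ∩ {v | v + z ∈ SW B W}) x → z ∈ SW B W := by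
      intro H' x z hzB hzW hpos
      obtain ⟨w, _, hv1, hv2⟩ := exists_of_dens_pos hpos
      have e : x + w + z - (x + w) = z := by abel
      have := close3 R B hcov hRB hB hrule W hv2 hv1 (by rw [e]; exact hzW)
        (by rw [e]; exact hzB)
      rwa [e] at this
    have hsub : B ⊆ SW B W ∪ (Unpop H1 (SW B W) y1 ∪ (W : Set V)) := by
      intro z hz
      by_cases hzW : z ∈ W
      · exact Or.inr (Or.inr hzW)
      by_cases hzU : z ∈ Unpop H1 (SW B W) y1
      · exact Or.inr (Or.inl hzU)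
      left
      have h1 : 1 / 8 * dens H1 (SW B W) y1 ^ 2
          < dens H1 (SW B W ∩ {v | v + z ∈ SW B W}) y1 := not_le.mp hzU
      have h2 : (0 : ℝ) ≤ 1 / 8 * dens H1 (SW B W) y1 ^ 2 := by positivity
      exact hclose H1 y1 z hz hzW (lt_of_le_of_lt h2 h1)
    have p1 : (1 / 2 : ℝ) ^ (4 * t + 6) ≤ (1 / 2) ^ (2 * t + 2) :=
      pow_le_pow_of_le_one (by norm_num) (by norm_num) (by omega)
    have p2 : (1 / 2 : ℝ) ^ (2 * t + 1) = (1 / 2) ^ (2 * t) * (1 / 2) := pow_succ _ _
    have p3 : (1 / 2 : ℝ) ^ (2 * t + 2) = (1 / 2) ^ (2 * t) * (1 / 4) := by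
      rw [pow_add]; norm_num
    have p4 : (0 : ℝ) < (1 / 2) ^ (2 * t) := by positivity
    have hS1 : (1 / 2 : ℝ) ^ (2 * t + 1) ≤ dens H1 (SW B W) 0 := by
      have h1 := hdB H1 (by omega)
      have h2 := dens_mono H1 hsub 0
      have h3 := dens_union H1 (SW B W) (Unpop H1 (SW B W) y1 ∪ (W : Set V)) 0
      have h4 := dens_union H1 (Unpop H1 (SW B W) y1) (W : Set V) 0
      have h5 := hsmall W H1 0 (by omega) (by omega)
      have h6 : (1 / 2 : ℝ) ^ (4 * t + 6 + 1) ≤ (1 / 2) ^ (2 * t + 2) :=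
        pow_le_pow_of_le_one (by norm_num) (by norm_num) (by omega)
      rw [p2]
      rw [p3] at p1 h6
      linarith
    -- second application of popularity
    obtain ⟨H2, hle2, hcod2, y2, hα2, hun2⟩ := popular (SW B W) (d := 2 * t + 1) (by omega) H1 0 hS1
    have hdim2 : 5 * t + 7 ≤ finrank (ZMod 3) H2 := by omega
    have hlt : dens H2 (Unpop H2 (SW B W) y2 ∪ (W : Set V)) 0 < dens H2 B 0 := by
      have h1 := hdB H2 (by omega)
      have h4 := dens_union H2 (Unpop H2 (SW B W) y2) (W : Set V) 0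
      have h5 := hsmall W H2 0 (by omega) hdim2
      have h10 : (1 / 2 : ℝ) ^ (2 * t + 1 + 1) = (1 / 2) ^ (2 * t + 2) := rfl
      rw [h10, p3] at hun2
      rw [p3] at p1
      linarith
    obtain ⟨z, hzH, hzB, hzn⟩ := exists_of_dens_lt hlt
    rw [zero_add] at hzB hzn
    have hzW : z ∉ W := fun h => hzn (Or.inr h)
    have hzU : z ∉ Unpop H2 (SW B W) y2 := fun h => hzn (Or.inl h)
    have hpop : (1 / 2 : ℝ) ^ (4 * t + 5) ≤ dens H2 (SW B W ∩ {v | v + z ∈ SW B W}) y2 := by
      have h1 : 1 / 8 * dens H2 (SW B W) y2 ^ 2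
          < dens H2 (SW B W ∩ {v | v + z ∈ SW B W}) y2 := not_le.mp hzU
      have h3 : ((1 / 2 : ℝ) ^ (2 * t + 1)) ^ 2 ≤ dens H2 (SW B W) y2 ^ 2 :=
        pow_le_pow_left₀ (by positivity) hα2 2
      have h4 : (1 / 2 : ℝ) ^ (4 * t + 5) = 1 / 8 * ((1 / 2 : ℝ) ^ (2 * t + 1)) ^ 2 := by
        rw [← pow_mul, show 4 * t + 5 = 3 + (2 * t + 1) * 2 by ring, pow_add]
        norm_num
      rw [h4]
      linarith
    have hzS : z ∈ SW B W := hclose H2 y2 z hzB hzW (lt_of_lt_of_le (by positivity) hpop)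
    have hz0 : z ≠ 0 := fun h => hzW (by rw [h]; exact W.zero_mem)
    set W' : Submodule (ZMod 3) V := W ⊔ Submodule.span (ZMod 3) {z} with hW'
    have hcases : ∀ v ∈ W', v ∈ W ∨ (∃ w ∈ W, v = z + w) ∨ ∃ w ∈ W, v = -(z + w) := by
      intro v hv
      rw [hW', Submodule.mem_sup] at hv
      obtain ⟨w, hw, x, hx, rfl⟩ := hv
      rw [Submodule.mem_span_singleton] at hx
      obtain ⟨c, rfl⟩ := hx
      rcases zmod3_cases c with rfl | rfl | rfl
      · left; rw [zero_smul, add_zero]; exact hw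
      · right; left; exact ⟨w, hw, by rw [one_smul, add_comm]⟩
      · right; right
        exact ⟨-w, W.neg_mem hw, by rw [neg_smul, one_smul]; abel⟩
    have hfin : finrank (ZMod 3) W' = j + 1 := by
      have h1 := Submodule.finrank_sup_add_finrank_inf_eq W (Submodule.span (ZMod 3) {z})
      have h2 : W ⊓ Submodule.span (ZMod 3) {z} = ⊥ := by
        rw [← disjoint_iff, Submodule.disjoint_span_singleton' hz0]
        exact hzW
      rw [h2, finrank_bot, finrank_span_singleton hz0, hWj] at h1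
      omega
    refine ⟨W', H2, y2, hfin, ?_, ?_, ?_⟩
    · intro v hv hv0
      rcases hcases v hv with h | ⟨w, hw, rfl⟩ | ⟨w, hw, rfl⟩
      · exact hWB v h hv0
      · exact hzS w hw
      · exact hB _ (hzS w hw)
    · rw [hc]; omega
    · have hsubS : SW B W ∩ {v | v + z ∈ SW B W} ⊆ SW B W' ∪ (W' : Set V) := by
        rintro v ⟨hv1, hv2⟩
        by_cases hvW : v ∈ W'
        · exact Or.inr hvW
        left
        intro u hu
        rcases hcases u hu with h | ⟨w, hw, rfl⟩ | ⟨w, hw, rfl⟩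
        · exact hv1 u h
        · have := hv2 w hw
          rwa [add_assoc] at this
        · -- the third translate
          have hvB : v ∈ B := by have := hv1 0 W.zero_mem; rwa [add_zero] at this
          have hzw : z + w ∈ B := hzS w hw
          have h1 : v + (z + w) ∈ B := by
            have := hv2 w hw
            rwa [add_assoc] at this
          have h2 := hrule v hvB (z + w) hzw h1 (by
            intro h
            apply hvW
            rw [h, hW']
            exact Submodule.add_mem _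
              (Submodule.mem_sup_right (Submodule.mem_span_singleton_self z))
              (Submodule.mem_sup_left hw))
          rwa [sub_eq_add_neg] at h2
      have h1 := dens_mono H2 hsubS y2
      have h2 := dens_union H2 (SW B W') (W' : Set V) y2
      have h3 := hsmall W' H2 y2 (by omega) hdim2
      have h4 : (1 / 2 : ℝ) ^ (4 * t + 6) = (1 / 2) ^ (4 * t + 5) * (1 / 2) := pow_succ _ _
      have h5 : (0 : ℝ) < (1 / 2) ^ (4 * t + 5) := by positivity
      rw [h4] at h3 ⊢
      linarith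

end Pool.Agent.H35.KP
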