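import Pool.Agent.H35.KP.Chang

set_option autoImplicit false

open Finset Function Module
open scoped BigOperators ComplexConjugate

namespace Pool.Agent.H35.KP

open Pool.Agent.H77.KM

variable {p : ℕ} [Fact p.Prime] {V : Type*} [AddCommGroup V] [Module (ZMod p) V] [Fintype V]

/-- The finite set of elements of a subspace. -/
noncomputable def sf (W : Submodule (ZMod p) V) : Finset V := by
  classical exact Finset.univ.filter (fun x => x ∈ W)

lemma mem_sf {W : Submodule (ZMod p) V} {x : V} : x ∈ sf W ↔ x ∈ W := by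
  classical
  simp [sf]

lemma sf_nonempty (W : Submodule (ZMod p) V) : (sf W).Nonempty :=
  ⟨0, mem_sf.mpr W.zero_mem⟩

lemma expect_sf_add (W : Submodule (ZMod p) V) (F : V → ℝ) {w0 : V} (hw0 : w0 ∈ W) :
    𝔼 w ∈ sf W, F (w + w0) = 𝔼 w ∈ sf W, F w := by
  refine Finset.expect_equiv (Equiv.addRight w0) (fun w => ?_) (fun w _ => rfl)
  rw [mem_sf, mem_sf]
  exact ⟨fun h => W.add_mem h hw0, fun h => (W.add_mem_iff_left hw0).mp h⟩

lemma cexpect_sf_add (W : Submodule (ZMod p) V) (F : V → ℂ) {w0 : V} (hw0 : w0 ∈ W) :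
    𝔼 w ∈ sf W, F (w + w0) = 𝔼 w ∈ sf W, F w := by
  refine Finset.expect_equiv (Equiv.addRight w0) (fun w => ?_) (fun w _ => rfl)
  rw [mem_sf, mem_sf]
  exact ⟨fun h => W.add_mem h hw0, fun h => (W.add_mem_iff_left hw0).mp h⟩

lemma uhat_sf_of_vanish (W : Submodule (ZMod p) V) (φ : Dual (ZMod p) V)
    (h : ∀ w ∈ W, φ w = 0) : uhat (sf W) φ = 1 := by
  unfold uhat
  have : ∀ w ∈ sf W, chi φ w = 1 := fun w hw => by
    rw [chi, h w (mem_sf.mp hw), AddChar.map_zero_eq_one]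
  rw [Finset.expect_congr rfl this, Finset.expect_const (sf_nonempty W)]

lemma uhat_sf_cases (W : Submodule (ZMod p) V) (φ : Dual (ZMod p) V) :
    uhat (sf W) φ = 1 ∨ uhat (sf W) φ = 0 := by
  by_cases h : ∀ w ∈ W, φ w = 0
  · exact Or.inl (uhat_sf_of_vanish W φ h)
  · right
    push Not at h
    obtain ⟨w0, hw0, hne⟩ := h
    have h1 := chi_ne_one hne
    have h2 := cexpect_sf_add W (chi φ) hw0
    simp only [chi_add] at h2
    rw [← Finset.expect_mul] at h2
    have h3 : (𝔼 w ∈ sf W, chi φ w) * (chi φ w0 - 1) = 0 := by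
      rw [mul_sub, h2, mul_one, sub_self]
    exact (mul_eq_zero.mp h3).resolve_right (sub_ne_zero.mpr h1)

/-- If `g` is almost `1` on `A' + A`, then `g` is almost `1` on a coset of a subspace of small
codimension. -/
lemma coset_structure (A A' : Finset V) (hA : A.Nonempty) (hA' : A'.Nonempty) (g : V → ℝ)
    (hg0 : ∀ x, 0 ≤ g x) (hg1 : ∀ x, g x ≤ 1) {L : ℕ} (hL : 6 ≤ L)
    (hAd : (1 / 2 : ℝ) ^ L ≤ (A.card : ℝ) / Fintype.card V)
    (hAd' : (1 / 2 : ℝ) ^ L ≤ (A'.card : ℝ) / Fintype.card V)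
    (hbig : 63 / 64 ≤ 𝔼 x ∈ A', avg A g x) :
    ∃ W : Submodule (ZMod p) V,
      finrank (ZMod p) V ≤ finrank (ZMod p) W + 12582920 * L ^ 4 ∧
      ∃ x0, 15 / 16 ≤ avg (sf W) g x0 := by
  classical
  have hFin : Finite (Dual (ZMod p) V) := Finite.of_injective (fun φ => (φ : V → ZMod p))
    DFunLike.coe_injective
  let instF : Fintype (Dual (ZMod p) V) := Fintype.ofFinite _
  obtain ⟨T, hT, hTd, hTap⟩ := almost_periodic A A' hA hA' g hg0 hg1 (by omega : 0 < L) hAd'
  set K : ℕ := L * (1572864 * L ^ 3) + 1 with hK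
  have hTK : (1 / 2 : ℝ) ^ K ≤ (T.card : ℝ) / Fintype.card V := by
    refine le_trans ?_ hTd
    have : ((1 / 2 : ℝ) ^ L) ^ (1572864 * L ^ 3)
        ≤ ((A.card : ℝ) / Fintype.card V) ^ (1572864 * L ^ 3) :=
      pow_le_pow_left₀ (by positivity) hAd _
    rw [hK, pow_succ, pow_mul]
    linarith
  obtain ⟨Φ, hΦ, hspec⟩ := chang (p := p) T hT hTK
  set W : Submodule (ZMod p) V := Φ.dualCoannihilator with hW
  have hcodim : finrank (ZMod p) V ≤ finrank (ZMod p) W + 12582920 * L ^ 4 := by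
    have h1 := Subspace.finrank_add_finrank_dualCoannihilator_eq Φ
    have h2 : 8 * K ≤ 12582920 * L ^ 4 := by
      have h3 : 1 ≤ L ^ 4 := Nat.one_le_pow _ _ (by omega)
      have h4 : L * (1572864 * L ^ 3) = 1572864 * L ^ 4 := by ring
      rw [hK, h4]
      omega
    rw [← hW] at h1
    omega
  refine ⟨W, hcodim, ?_⟩
  set gW : V → ℝ := avg (sf W) g with hgW
  set P : ℝ := 𝔼 x ∈ A', ((davg T)^[L] (avg A g)) x with hP
  set Q : ℝ := 𝔼 x ∈ A', ((davg T)^[L] (avg A gW)) x with hQ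
  have hPlow : 62 / 64 ≤ P := by
    have h1 := (abs_le.mp hTap).1
    rw [Finset.expect_sub_distrib] at h1
    rw [hP]
    linarith
  -- Fourier expansion of the difference
  have hPQ : ((P - Q : ℝ) : ℂ) = ∑ φ : Dual (ZMod p) V,
      (uhat T φ * conj (uhat T φ)) ^ L *
        (uhat A φ * uhat A' φ * (hat g φ * (1 - uhat (sf W) φ))) := by
    rw [Complex.ofReal_sub, hP, hQ, expect_finset_eq_sum_hat (p := p),
      expect_finset_eq_sum_hat (p := p), ← Finset.sum_sub_distrib]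
    refine Finset.sum_congr rfl (fun φ _ => ?_)
    rw [hat_davg_iter, hat_davg_iter, hat_avg, hat_avg, hgW, hat_avg]
    ring
  have hdiff : |P - Q| ≤ 1 / 64 := by
    rw [← Real.norm_eq_abs, ← Complex.norm_real, hPQ]
    refine le_trans (norm_sum_le _ _) ?_
    have hterm : ∀ φ : Dual (ZMod p) V,
        ‖(uhat T φ * conj (uhat T φ)) ^ L *
          (uhat A φ * uhat A' φ * (hat g φ * (1 - uhat (sf W) φ)))‖
          ≤ (1 / 4) ^ L * (1 / 2 * (‖uhat A φ‖ ^ 2 + ‖uhat A' φ‖ ^ 2)) := by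
      intro φ
      by_cases hφ : φ ∈ Φ
      · have h1 : uhat (sf W) φ = 1 := by
          refine uhat_sf_of_vanish W φ (fun w hw => ?_)
          rw [hW, Submodule.mem_dualCoannihilator] at hw
          exact hw φ hφ
        rw [h1]
        simp only [sub_self, mul_zero, norm_zero]
        positivity
      · have h2 : ‖uhat T φ‖ ≤ 1 / 2 := by
          by_contra hcon
          exact hφ (hspec φ (not_le.mp hcon).le)
        have h3 : ‖(uhat T φ * conj (uhat T φ)) ^ L‖ ≤ (1 / 4) ^ L := by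
          rw [norm_pow, norm_mul, RCLike.norm_conj]
          refine pow_le_pow_left₀ (by positivity) ?_ L
          calc ‖uhat T φ‖ * ‖uhat T φ‖ ≤ (1 / 2) * (1 / 2) :=
                mul_le_mul h2 h2 (norm_nonneg _) (by norm_num)
            _ = 1 / 4 := by norm_num
        have h4 : ‖hat g φ * (1 - uhat (sf W) φ)‖ ≤ 1 := by
          rw [norm_mul]
          have h5 := norm_hat_le hg0 hg1 φ
          have h6 : ‖1 - uhat (sf W) φ‖ ≤ 1 := by
            rcases uhat_sf_cases W φ with h | h <;> rw [h] <;> simp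
          calc ‖hat g φ‖ * ‖1 - uhat (sf W) φ‖ ≤ 1 * 1 :=
                mul_le_mul h5 h6 (norm_nonneg _) (by norm_num)
            _ = 1 := by norm_num
        have h7 : ‖uhat A φ * uhat A' φ‖ ≤ 1 / 2 * (‖uhat A φ‖ ^ 2 + ‖uhat A' φ‖ ^ 2) := by
          rw [norm_mul]
          nlinarith [sq_nonneg (‖uhat A φ‖ - ‖uhat A' φ‖)]
        rw [norm_mul, norm_mul (uhat A φ * uhat A' φ)]
        refine mul_le_mul h3 ?_ (by positivity) (by positivity)
        exact le_trans (mul_le_of_le_one_right (norm_nonneg _) h4) h7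
    refine le_trans (Finset.sum_le_sum (fun φ _ => hterm φ)) ?_
    rw [← Finset.mul_sum, ← Finset.mul_sum, Finset.sum_add_distrib, parseval A hA,
      parseval A' hA']
    have h1 : ((A.card : ℝ) / Fintype.card V)⁻¹ ≤ 2 ^ L := by
      have := inv_anti₀ (by positivity) hAd
      refine le_trans this (le_of_eq ?_)
      rw [one_div, inv_pow, inv_inv]
    have h1' : ((A'.card : ℝ) / Fintype.card V)⁻¹ ≤ 2 ^ L := by
      have := inv_anti₀ (by positivity) hAd'
      refine le_trans this (le_of_eq ?_)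
      rw [one_div, inv_pow, inv_inv]
    calc (1 / 4 : ℝ) ^ L * (1 / 2 * (((A.card : ℝ) / Fintype.card V)⁻¹
          + ((A'.card : ℝ) / Fintype.card V)⁻¹)) ≤ (1 / 4) ^ L * 2 ^ L :=
          mul_le_mul_of_nonneg_left (by linarith) (by positivity)
      _ = (1 / 2) ^ L := by rw [← mul_pow]; norm_num
      _ ≤ (1 / 2) ^ 6 := pow_le_pow_of_le_one (by norm_num) (by norm_num) hL
      _ = 1 / 64 := by norm_num
  have hQlow : 61 / 64 ≤ Q := by
    have := (abs_le.mp hdiff).2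
    linarith
  -- maximise
  obtain ⟨x0, hx0⟩ := Finite.exists_max gW
  refine ⟨x0, ?_⟩
  have hQup : Q ≤ gW x0 := by
    rw [hQ]
    exact Finset.expect_le hA' (fun x _ =>
      davg_iter_le T hT L (fun y => avg_le A hA hx0 y) x)
  linarith

variable (p) in
/-- A large moment of the self-correlation of a set gives a density increment. -/
lemma increment_of_moment (a : V → ℝ) (ha : ∀ x, a x = 0 ∨ a x = 1) {d m : ℕ} (hd : 1 ≤ d)
    (hm : 47 ≤ m) (hα : (1 / 2 : ℝ) ^ d ≤ 𝔼 x, a x)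
    (hbig : ((5 / 4 : ℝ) * (𝔼 x, a x) ^ 2) ^ m ≤ 𝔼 x, corr a a x ^ m) :
    ∃ W : Submodule (ZMod p) V,
      finrank (ZMod p) V ≤ finrank (ZMod p) W + 12582920 * (d * m + 1) ^ 4 ∧
      ∃ x0, 135 / 128 * (𝔼 x, a x) ≤ avg (sf W) a x0 := by
  classical
  have hαpos : 0 < 𝔼 x, a x := lt_of_lt_of_le (by positivity) hα
  obtain ⟨A, hA, hAd, hAs⟩ := sift a ha hαpos hm hbig
  set α : ℝ := 𝔼 x, a x with hαdef
  set g : V → ℝ := fun x => 1 - (if corr a a x < 9 / 8 * α ^ 2 then (1 : ℝ) else 0) with hg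
  have hg0 : ∀ x, 0 ≤ g x := fun x => by simp only [hg]; split_ifs <;> norm_num
  have hg1 : ∀ x, g x ≤ 1 := fun x => by simp only [hg]; split_ifs <;> norm_num
  have hL6 : 6 ≤ d * m + 1 := by nlinarith
  have hAd' : (1 / 2 : ℝ) ^ (d * m + 1) ≤ (A.card : ℝ) / Fintype.card V := by
    refine le_trans ?_ hAd
    have : ((1 / 2 : ℝ) ^ d) ^ m ≤ α ^ m := pow_le_pow_left₀ (by positivity) hα m
    rw [pow_succ, pow_mul]
    linarith
  set A' : Finset V := A.image (fun y => -y) with hA'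
  have hA'ne : A'.Nonempty := hA.image _
  have hA'card : A'.card = A.card := Finset.card_image_of_injective _ neg_injective
  have hbig' : 63 / 64 ≤ 𝔼 x ∈ A', avg A g x := by
    have h0 : 𝔼 x ∈ A', avg A g x = 𝔼 y ∈ A, avg A g (-y) := by
      rw [hA']
      exact Finset.expect_image (neg_injective.injOn)
    have h1 : ∀ y ∈ A, avg A g (-y)
        = 1 - 𝔼 z ∈ A, (if corr a a (z - y) < 9 / 8 * α ^ 2 then (1 : ℝ) else 0) := by
      intro y _
      simp only [avg, hg]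
      rw [Finset.expect_sub_distrib, Finset.expect_const hA]
      congr 1
      refine Finset.expect_congr rfl (fun z _ => ?_)
      rw [neg_add_eq_sub]
    rw [h0, Finset.expect_congr rfl h1, Finset.expect_sub_distrib, Finset.expect_const hA]
    linarith
  obtain ⟨W, hW, x0, hx0⟩ := coset_structure (p := p) A A' hA hA'ne g hg0 hg1 hL6 hAd'
    (by rw [hA'card]; exact hAd') hbig'
  refine ⟨W, hW, ?_⟩
  have ha0 : ∀ x, 0 ≤ a x := fun x => by rcases ha x with h | h <;> rw [h] <;> norm_num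
  have hc0 : ∀ x, 0 ≤ corr a a x := fun x =>
    Finset.expect_nonneg (fun y _ => mul_nonneg (ha0 _) (ha0 _))
  have hcg : ∀ x, 9 / 8 * α ^ 2 * g x ≤ corr a a x := by
    intro x
    simp only [hg]
    split_ifs with h
    · rw [sub_self, mul_zero]; exact hc0 x
    · rw [sub_zero, mul_one]; exact not_lt.mp h
  have h1 : 9 / 8 * α ^ 2 * (15 / 16) ≤ avg (sf W) (corr a a) x0 := by
    calc 9 / 8 * α ^ 2 * (15 / 16) ≤ 9 / 8 * α ^ 2 * avg (sf W) g x0 :=
          mul_le_mul_of_nonneg_left hx0 (by positivity)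
      _ = 𝔼 w ∈ sf W, 9 / 8 * α ^ 2 * g (x0 + w) := by
          rw [avg, Finset.mul_expect]
      _ ≤ avg (sf W) (corr a a) x0 := Finset.expect_le_expect (fun w _ => hcg _)
  obtain ⟨y0, hy0⟩ := Finite.exists_max (avg (sf W) a)
  refine ⟨y0, ?_⟩
  have h2 : avg (sf W) (corr a a) x0 ≤ α * avg (sf W) a y0 := by
    have h3 : avg (sf W) (corr a a) x0 = 𝔼 y, a y * avg (sf W) a (y + x0) := by
      simp only [avg, corr]
      rw [Finset.expect_comm]
      refine Finset.expect_congr rfl (fun y _ => ?_)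
      rw [Finset.mul_expect]
      simp only [add_assoc]
    rw [h3, hαdef, Finset.expect_mul]
    exact Finset.expect_le_expect (fun y _ => mul_le_mul_of_nonneg_left (hy0 _) (ha0 _))
  have h3 : 9 / 8 * α ^ 2 * (15 / 16) ≤ α * avg (sf W) a y0 := le_trans h1 h2
  have h4 : α * (135 / 128 * α) ≤ α * avg (sf W) a y0 := by
    refine le_trans (le_of_eq ?_) h3
    ring
  exact le_of_mul_le_mul_left h4 hαpos

omit [Module (ZMod p) V] in
/-- The normalised correlation of two `0/1` functions, minus one. -/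
lemma corr_normalised (a b : V → ℝ) (hα : (𝔼 x, a x) ≠ 0) (hβ : (𝔼 x, b x) ≠ 0) (x : V) :
    corr (fun y => a y / (𝔼 x, a x) - 1) (fun y => b y / (𝔼 x, b x) - 1) x
      = corr a b x / ((𝔼 x, a x) * (𝔼 x, b x)) - 1 := by
  set α := 𝔼 x, a x with hαd
  set β := 𝔼 x, b x with hβd
  unfold corr
  have h1 : ∀ y, (a y / α - 1) * (b (y + x) / β - 1)
      = (a y * b (y + x)) / (α * β) - a y / α - b (y + x) / β + 1 := by
    intro y
    field_simp
    ring
  simp only [h1]
  rw [Finset.expect_add_distrib, Finset.expect_sub_distrib, Finset.expect_sub_distrib,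
    Finset.expect_const Finset.univ_nonempty, ← Finset.expect_div, ← Finset.expect_div,
    ← Finset.expect_div, expect_add_right b x, ← hαd, ← hβd, div_self hα, div_self hβ]
  ring

variable (p) in
lemma increment_of_even_moment (a : V → ℝ) (ha : ∀ x, a x = 0 ∨ a x = 1) {d : ℕ} (hd : 1 ≤ d)
    (hα : (1 / 2 : ℝ) ^ d ≤ 𝔼 x, a x)
    (hbig : (1 / 2 : ℝ) ^ (2 * d + 10) ≤ 𝔼 x, corr (fun y => a y / (𝔼 x, a x) - 1)
      (fun y => a y / (𝔼 x, a x) - 1) x ^ (2 * d + 10)) :
    ∃ W : Submodule (ZMod p) V,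
      finrank (ZMod p) V ≤ finrank (ZMod p) W + 12582920 * (d * (26 * (2 * d + 11)) + 1) ^ 4 ∧
      ∃ x0, 135 / 128 * (𝔼 x, a x) ≤ avg (sf W) a x0 := by
  classical
  have hαpos : 0 < 𝔼 x, a x := lt_of_lt_of_le (by positivity) hα
  have ha0 : ∀ x, 0 ≤ a x := fun x => by rcases ha x with h | h <;> rw [h] <;> norm_num
  have hc0 : ∀ x, 0 ≤ corr a a x := fun x =>
    Finset.expect_nonneg (fun y _ => mul_nonneg (ha0 _) (ha0 _))
  refine increment_of_moment p a ha hd (by omega : 47 ≤ 26 * (2 * d + 11)) hα ?_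
  set α : ℝ := 𝔼 x, a x with hαd
  set f : V → ℝ := fun y => a y / α - 1 with hf
  have hF : ∀ x, 1 + corr f f x = corr a a x / (α * α) := by
    intro x
    rw [hf, corr_normalised a a hαpos.ne' hαpos.ne']
    ring
  have h := unbalance (corr f f) (fun x => by rw [hF]; exact div_nonneg (hc0 x) (by positivity))
    (p := 2 * d + 10) (by exact ⟨d + 5, by ring⟩) (by omega)
    (expect_corr_self_pow_nonneg f _) hbig
  simp only [hF] at h
  have e1 : 26 * (2 * d + 10 + 1) = 26 * (2 * d + 11) := by ring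
  rw [e1] at h
  set m := 26 * (2 * d + 11) with hm
  have h2 : 𝔼 x, (corr a a x / (α * α)) ^ m = (𝔼 x, corr a a x ^ m) / (α ^ 2) ^ m := by
    rw [Finset.expect_div]
    refine Finset.expect_congr rfl (fun x _ => ?_)
    rw [div_pow, ← sq]
  rw [h2, le_div_iff₀ (by positivity)] at h
  rw [mul_pow]
  exact h

/-- The per-step codimension. -/
def stepDim (d : ℕ) : ℕ := 12582920 * (d * (26 * (2 * d + 11)) + 1) ^ 4

lemma stepDim_le (d : ℕ) (hd : 1 ≤ d) : stepDim d ≤ 12582920 * 339 ^ 4 * d ^ 8 := by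
  unfold stepDim
  have h1 : d * (26 * (2 * d + 11)) + 1 ≤ 339 * d ^ 2 := by nlinarith
  calc 12582920 * (d * (26 * (2 * d + 11)) + 1) ^ 4 ≤ 12582920 * (339 * d ^ 2) ^ 4 :=
        Nat.mul_le_mul_left _ (Nat.pow_le_pow_left h1 4)
    _ = _ := by ring

variable (p) in
/-- The increment step with popular differences. -/
lemma increment_pop (a c : V → ℝ) (ha : ∀ x, a x = 0 ∨ a x = 1) (hc : ∀ x, c x = 0 ∨ c x = 1)
    (hpop : ∀ x, c x = 1 → corr a a x ≤ 1 / 8 * (𝔼 x, a x) ^ 2) {d : ℕ} (hd : 1 ≤ d)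
    (hα : (1 / 2 : ℝ) ^ d ≤ 𝔼 x, a x) (hγ : (1 / 2 : ℝ) ^ (d + 1) < 𝔼 x, c x) :
    ∃ W : Submodule (ZMod p) V,
      finrank (ZMod p) V ≤ finrank (ZMod p) W + stepDim d ∧
      ∃ x0, 135 / 128 * (𝔼 x, a x) ≤ avg (sf W) a x0 := by
  have hαpos : 0 < 𝔼 x, a x := lt_of_lt_of_le (by positivity) hα
  refine increment_of_even_moment p a ha hd hα ?_
  set α : ℝ := 𝔼 x, a x with hαd
  set f : V → ℝ := fun y => a y / α - 1 with hf
  have hpe : Even (2 * d + 10) := ⟨d + 5, by ring⟩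
  have h1 : ∀ x, (7 / 8 : ℝ) ^ (2 * d + 10) * c x ≤ corr f f x ^ (2 * d + 10) := by
    intro x
    rcases hc x with h | h
    · rw [h, mul_zero]; exact hpe.pow_nonneg _
    · have h2 := hpop x h
      have h3 : corr f f x ≤ -(7 / 8) := by
        rw [hf, corr_normalised a a hαpos.ne' hαpos.ne', ← hαd]
        have : corr a a x / (α * α) ≤ 1 / 8 := by
          rw [div_le_iff₀ (by positivity)]
          linarith [sq α]
        linarith
      rw [h, mul_one, ← hpe.neg_pow (corr f f x)]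
      exact pow_le_pow_left₀ (by norm_num) (by linarith) _
  have h2 : (7 / 8 : ℝ) ^ (2 * d + 10) * (𝔼 x, c x) ≤ 𝔼 x, corr f f x ^ (2 * d + 10) := by
    rw [Finset.mul_expect]
    exact Finset.expect_le_expect (fun x _ => h1 x)
  refine le_trans ?_ h2
  have h3 : (7 / 8 : ℝ) ^ (2 * d + 10) * (1 / 2) ^ (d + 1)
      ≤ (7 / 8 : ℝ) ^ (2 * d + 10) * (𝔼 x, c x) :=
    mul_le_mul_of_nonneg_left hγ.le (by positivity)
  refine le_trans ?_ h3
  have e1 : (1 / 2 : ℝ) ^ (2 * d + 10) = (1 / 4) ^ (d + 5) := by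
    rw [show 2 * d + 10 = 2 * (d + 5) by ring, pow_mul]; norm_num
  have e2 : (7 / 8 : ℝ) ^ (2 * d + 10) = (49 / 64) ^ (d + 5) := by
    rw [show 2 * d + 10 = 2 * (d + 5) by ring, pow_mul]; norm_num
  have e3 : (1 / 2 : ℝ) ^ (d + 5) ≤ (1 / 2) ^ (d + 1) :=
    pow_le_pow_of_le_one (by norm_num) (by norm_num) (by omega)
  rw [e1, e2]
  calc (1 / 4 : ℝ) ^ (d + 5) ≤ (49 / 128) ^ (d + 5) :=
        pow_le_pow_left₀ (by norm_num) (by norm_num) _
    _ = (49 / 64) ^ (d + 5) * (1 / 2) ^ (d + 5) := by rw [← mul_pow]; norm_num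
    _ ≤ _ := mul_le_mul_of_nonneg_left e3 (by positivity)

end Pool.Agent.H35.KP
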