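import Pool.Agent.H35.KP.Grow

set_option autoImplicit false

open Finset Function Module
open scoped BigOperators

namespace Pool.Agent.H35.KP

open Pool.Agent.H77.KM

universe u

variable {V : Type u} [AddCommGroup V] [Module (ZMod 3) V] [Fintype V]

lemma cost_bound (t : ℕ) (ht : 1 ≤ t) : 5 * t + 7 + t * cost t ≤ 10 ^ 28 * t ^ 10 := by
  have h2 := stepDim_le (4 * t + 6) (by omega)
  have h3 := stepDim_le (2 * t + 1) (by omega)
  have k2 : (4 * t + 6) ^ 8 ≤ (10 * t) ^ 8 := Nat.pow_le_pow_left (by omega) 8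
  have k3 : (2 * t + 1) ^ 8 ≤ (3 * t) ^ 8 := Nat.pow_le_pow_left (by omega) 8
  have h2' : stepDim (4 * t + 6) ≤ 12582920 * 339 ^ 4 * (10 * t) ^ 8 :=
    le_trans h2 (Nat.mul_le_mul_left _ k2)
  have h3' : stepDim (2 * t + 1) ≤ 12582920 * 339 ^ 4 * (3 * t) ^ 8 :=
    le_trans h3 (Nat.mul_le_mul_left _ k3)
  have m2 : 14 * (4 * t + 6) * stepDim (4 * t + 6)
      ≤ 14 * (10 * t) * (12582920 * 339 ^ 4 * (10 * t) ^ 8) :=
    Nat.mul_le_mul (by omega) h2'
  have m3 : 14 * (2 * t + 1) * stepDim (2 * t + 1)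
      ≤ 14 * (3 * t) * (12582920 * 339 ^ 4 * (3 * t) ^ 8) :=
    Nat.mul_le_mul (by omega) h3'
  have m4 : t * cost t ≤ t * (14 * (10 * t) * (12582920 * 339 ^ 4 * (10 * t) ^ 8)
      + 14 * (3 * t) * (12582920 * 339 ^ 4 * (3 * t) ^ 8)) :=
    Nat.mul_le_mul_left _ (Nat.add_le_add m2 m3)
  have e2 : t * (14 * (10 * t) * (12582920 * 339 ^ 4 * (10 * t) ^ 8)
      + 14 * (3 * t) * (12582920 * 339 ^ 4 * (3 * t) ^ 8))
      = (14 * 10 * (12582920 * 339 ^ 4 * 10 ^ 8) + 14 * 3 * (12582920 * 339 ^ 4 * 3 ^ 8))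
        * t ^ 10 := by ring
  rw [e2] at m4
  have p1 : t ≤ t ^ 10 := Nat.le_self_pow (by norm_num) t
  set T := t ^ 10 with hT
  have n2 : (14 * 10 * (12582920 * 339 ^ 4 * 10 ^ 8) + 14 * 3 * (12582920 * 339 ^ 4 * 3 ^ 8)) * T
      + 12 * T ≤ 10 ^ 28 * T := by
    rw [← Nat.add_mul]
    exact Nat.mul_le_mul_right _ (by norm_num)
  omega

/-- The vector form of the result. -/
theorem main_vec (R B : Set V) (h0B : (0 : V) ∉ B) (hcov : ∀ v : V, v ≠ 0 → v ∈ R ∨ v ∈ B)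
    (h0R : (0 : V) ∉ R) (hRB : ∀ v ∈ R, v ∉ B)
    (hB : ∀ v ∈ B, -v ∈ B) (hrule : ∀ x ∈ B, ∀ y ∈ B, x + y ∈ B → x ≠ y → x - y ∈ B)
    (t : ℕ) (ht : 1 ≤ t) (hn : 10 ^ 28 * t ^ 10 ≤ finrank (ZMod 3) V) :
    ∃ U : Submodule (ZMod 3) V, finrank (ZMod 3) U = t ∧
      ((∀ u ∈ U, u ∉ R) ∨ (∀ u ∈ U, u ∉ B)) := by
  classical
  by_cases hdB : ∀ H : Submodule (ZMod 3) V, t ≤ finrank (ZMod 3) H →
      (1 / 2 : ℝ) ^ (2 * t) ≤ dens H B 0
  · have hcb := cost_bound t ht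
    obtain ⟨W, _, _, hW, hWB, _, _⟩ := grow R B h0B hcov hRB hB hrule t ht hdB t le_rfl (by omega)
    refine ⟨W, hW, Or.inl (fun u hu huR => ?_)⟩
    have hu0 : u ≠ 0 := fun h => h0R (by rwa [h] at huR)
    exact hRB u huR (hWB u hu hu0)
  · push Not at hdB
    obtain ⟨H, hH, hsp⟩ := hdB
    obtain ⟨U, _, hU, hUB⟩ := missed B h0B (by
      intro c hc v hv
      rcases zmod3_cases c with rfl | rfl | rfl
      · exact absurd rfl hc
      · rwa [one_smul]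
      · rw [neg_smul, one_smul]; exact hB v hv) H hH (by
      have h1 : (0 : ℝ) < 3 ^ t := by positivity
      have h2 : (1 / 2 : ℝ) ^ (2 * t) * 3 ^ t < 1 := by
        rw [pow_mul, ← mul_pow]
        exact pow_lt_one₀ (by norm_num) (by norm_num) (by omega)
      calc dens H B 0 * ((3 : ℕ) : ℝ) ^ t = dens H B 0 * 3 ^ t := by norm_num
        _ < (1 / 2 : ℝ) ^ (2 * t) * 3 ^ t := mul_lt_mul_of_pos_right hsp h1
        _ < 1 := h2)
    exact ⟨U, hU, Or.inr hUB⟩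

omit [Fintype V] in
/-- A linear map from the plane with prescribed values on a basis. -/
theorem embed (v0 v1 : Fin 2 → ZMod 3) (hv0 : v0 ≠ 0) (hv1 : v1 ≠ 0) (hva : v0 + v1 ≠ 0)
    (hvs : v0 - v1 ≠ 0) (r0 r1 : V) (hr0 : r0 ≠ 0) (hr1 : r1 ≠ 0) (hra : r0 + r1 ≠ 0)
    (hrs : r0 - r1 ≠ 0) :
    ∃ φ : (Fin 2 → ZMod 3) →ₗ[ZMod 3] V, Function.Injective φ ∧ φ v0 = r0 ∧ φ v1 = r1 ∧
      ∀ v : Fin 2 → ZMod 3, v = 0 ∨ (v = v0 ∨ v = -v0) ∨ (v = v1 ∨ v = -v1) ∨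
        (v = v0 + v1 ∨ v = -(v0 + v1)) ∨ (v = v0 - v1 ∨ v = -(v0 - v1)) := by
  have hlin : LinearIndependent (ZMod 3) ![v0, v1] := by
    rw [LinearIndependent.pair_iff]
    intro a b h
    rcases zmod3_cases a with rfl | rfl | rfl <;> rcases zmod3_cases b with rfl | rfl | rfl
    · exact ⟨rfl, rfl⟩
    · rw [zero_smul, one_smul, zero_add] at h; exact absurd h hv1
    · rw [zero_smul, neg_smul, one_smul, zero_add, neg_eq_zero] at h; exact absurd h hv1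
    · rw [zero_smul, one_smul, add_zero] at h; exact absurd h hv0
    · rw [one_smul, one_smul] at h; exact absurd h hva
    · rw [neg_smul, one_smul, one_smul, ← sub_eq_add_neg] at h; exact absurd h hvs
    · rw [zero_smul, neg_smul, one_smul, add_zero, neg_eq_zero] at h; exact absurd h hv0
    · rw [neg_smul, one_smul, one_smul, neg_add_eq_zero] at h
      exact absurd (sub_eq_zero.mpr h) hvs
    · rw [neg_smul, neg_smul, one_smul, one_smul, ← neg_add, neg_eq_zero] at h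
      exact absurd h hva
  set b : Basis (Fin 2) (ZMod 3) (Fin 2 → ZMod 3) :=
    basisOfLinearIndependentOfCardEqFinrank hlin (by simp) with hb
  have hb' : ⇑b = ![v0, v1] := coe_basisOfLinearIndependentOfCardEqFinrank _ _
  set φ : (Fin 2 → ZMod 3) →ₗ[ZMod 3] V := b.constr (ZMod 3) ![r0, r1] with hφ
  have e0 : φ v0 = r0 := by
    have := b.constr_basis (ZMod 3) ![r0, r1] 0
    rw [hb'] at this
    exact this
  have e1 : φ v1 = r1 := by
    have := b.constr_basis (ZMod 3) ![r0, r1] 1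
    rw [hb'] at this
    exact this
  have hall : ∀ v : Fin 2 → ZMod 3, v = 0 ∨ (v = v0 ∨ v = -v0) ∨ (v = v1 ∨ v = -v1) ∨
        (v = v0 + v1 ∨ v = -(v0 + v1)) ∨ (v = v0 - v1 ∨ v = -(v0 - v1)) := by
    intro v
    have hs := b.sum_repr v
    rw [Fin.sum_univ_two, hb'] at hs
    have hs' : (b.repr v) 0 • v0 + (b.repr v) 1 • v1 = v := hs
    rcases zmod3_cases ((b.repr v) 0) with a0 | a0 | a0 <;>
      rcases zmod3_cases ((b.repr v) 1) with a1 | a1 | a1 <;>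
      rw [a0, a1] at hs' <;>
      simp only [zero_smul, one_smul, neg_smul, zero_add, add_zero] at hs'
    · exact Or.inl hs'.symm
    · exact Or.inr (Or.inr (Or.inl (Or.inl hs'.symm)))
    · exact Or.inr (Or.inr (Or.inl (Or.inr hs'.symm)))
    · exact Or.inr (Or.inl (Or.inl hs'.symm))
    · exact Or.inr (Or.inr (Or.inr (Or.inl (Or.inl hs'.symm))))
    · exact Or.inr (Or.inr (Or.inr (Or.inr (Or.inl (by rw [← hs', sub_eq_add_neg])))))
    · exact Or.inr (Or.inl (Or.inr hs'.symm))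
    · exact Or.inr (Or.inr (Or.inr (Or.inr (Or.inr (by rw [← hs', neg_sub, sub_eq_neg_add])))))
    · exact Or.inr (Or.inr (Or.inr (Or.inl (Or.inr (by rw [← hs', neg_add])))))
  refine ⟨φ, ?_, e0, e1, hall⟩
  rw [injective_iff_map_eq_zero]
  intro v hv
  rcases hall v with rfl | (rfl | rfl) | (rfl | rfl) | (rfl | rfl) | (rfl | rfl)
  · rfl
  · rw [e0] at hv; exact absurd hv hr0
  · rw [map_neg, e0, neg_eq_zero] at hv; exact absurd hv hr0
  · rw [e1] at hv; exact absurd hv hr1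
  · rw [map_neg, e1, neg_eq_zero] at hv; exact absurd hv hr1
  · rw [map_add, e0, e1] at hv; exact absurd hv hra
  · rw [map_neg, map_add, e0, e1, neg_eq_zero] at hv; exact absurd hv hra
  · rw [map_sub, e0, e1] at hv; exact absurd hv hrs
  · rw [map_neg, map_sub, e0, e1, neg_eq_zero] at hv; exact absurd hv hrs

lemma exists_second : ∀ v : Fin 2 → ZMod 3, v ≠ 0 → ∃ u, u ≠ 0 ∧ v + u ≠ 0 ∧ v - u ≠ 0 := by
  decide

end Pool.Agent.H35.KP
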