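import Pool.Agent.H35.KP.Rel

set_option autoImplicit false

open Finset Function Module
open scoped BigOperators

namespace Pool.Agent.H35.KP

open Pool.Agent.H77.KM

universe u

variable {p : ℕ} [Fact p.Prime] {V : Type u} [AddCommGroup V] [Module (ZMod p) V] [Fintype V]

/-- The largest density of `A` on a coset of `H`. -/
noncomputable def mx (H : Submodule (ZMod p) V) (A : Set V) : ℝ :=
  Finset.univ.sup' Finset.univ_nonempty (fun y => dens H A y)

lemma dens_le_mx (H : Submodule (ZMod p) V) (A : Set V) (y : V) : dens H A y ≤ mx H A :=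
  Finset.le_sup' (fun y => dens H A y) (Finset.mem_univ y)

lemma exists_mx (H : Submodule (ZMod p) V) (A : Set V) : ∃ y, mx H A = dens H A y := by
  obtain ⟨y, _, hy⟩ := Finset.exists_mem_eq_sup' (Finset.univ_nonempty (α := V))
    (fun y => dens H A y)
  exact ⟨y, hy⟩

lemma mx_le_one (H : Submodule (ZMod p) V) (A : Set V) : mx H A ≤ 1 := by
  obtain ⟨y, hy⟩ := exists_mx H A
  rw [hy]; exact dens_le_one H A y

lemma mx_mono {H H' : Submodule (ZMod p) V} (hle : H' ≤ H) (A : Set V) : mx H A ≤ mx H' A := by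
  obtain ⟨y, hy⟩ := exists_mx H A
  rw [hy, dens_eq_avg_dens hle A y]
  exact Finset.expect_le (sf_nonempty H) (fun h _ => dens_le_mx H' A _)

/-- Popular differences: on a subspace of small codimension almost every element is a popular
difference of `A`. -/
theorem popular (A : Set V) {d : ℕ} (hd : 1 ≤ d) (H : Submodule (ZMod p) V) (y : V)
    (hα : (1 / 2 : ℝ) ^ d ≤ dens H A y) :
    ∃ H' ≤ H, finrank (ZMod p) H ≤ finrank (ZMod p) H' + 14 * d * stepDim d ∧
      ∃ y', (1 / 2 : ℝ) ^ d ≤ dens H' A y' ∧ dens H' (Unpop H' A y') 0 ≤ (1 / 2) ^ (d + 1) := by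
  classical
  have key : ∀ N : ℕ, ∀ H : Submodule (ZMod p) V, ∀ y : V, (1 / 2 : ℝ) ^ d ≤ dens H A y →
      1 < dens H A y * (135 / 128 : ℝ) ^ N →
      ∃ H' ≤ H, finrank (ZMod p) H ≤ finrank (ZMod p) H' + N * stepDim d ∧
      ∃ y', (1 / 2 : ℝ) ^ d ≤ dens H' A y' ∧
        dens H' (Unpop H' A y') 0 ≤ (1 / 2) ^ (d + 1) := by
    intro N
    induction N with
    | zero =>
      intro H y _ h1
      exfalso
      rw [pow_zero, mul_one] at h1
      linarith [dens_le_one H A y]
    | succ N ih =>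
      intro H y h0 h1
      by_cases hG : dens H (Unpop H A y) 0 ≤ (1 / 2) ^ (d + 1)
      · exact ⟨H, le_rfl, by omega, y, h0, hG⟩
      · obtain ⟨H', hle, hcod, y', hy'⟩ := pop_rel H A y hd h0 (not_le.mp hG)
        have hpos : 0 < dens H A y := lt_of_lt_of_le (by positivity) h0
        obtain ⟨H'', hle', hcod', hex⟩ := ih H' y' (by linarith) (by
          refine lt_of_lt_of_le h1 ?_
          rw [pow_succ', ← mul_assoc]
          refine mul_le_mul_of_nonneg_right ?_ (by positivity)
          linarith)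
        refine ⟨H'', hle'.trans hle, ?_, hex⟩
        have : (N + 1) * stepDim d = N * stepDim d + stepDim d := by ring
        omega
  refine key (14 * d) H y hα ?_
  have h1 : (2 : ℝ) < (135 / 128) ^ 14 := by norm_num
  have h2 : (2 : ℝ) ^ d < (135 / 128) ^ (14 * d) := by
    rw [pow_mul]
    exact pow_lt_pow_left₀ h1 (by norm_num) (by omega)
  have h3 : (1 : ℝ) = (1 / 2) ^ d * 2 ^ d := by rw [← mul_pow]; norm_num
  calc (1 : ℝ) = (1 / 2) ^ d * 2 ^ d := h3
    _ < (1 / 2) ^ d * (135 / 128) ^ (14 * d) := mul_lt_mul_of_pos_left h2 (by positivity)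
    _ ≤ _ := mul_le_mul_of_nonneg_right hα (by positivity)

/-- Extending a subspace avoiding a symmetric set `C` by one dimension. -/
lemma extend_step (C : Set V) (hsc : ∀ c : ZMod p, c ≠ 0 → ∀ v ∈ C, c • v ∈ C)
    {W U : Submodule (ZMod p) V} (hU : U ≤ W) (hUC : ∀ u ∈ U, u ∉ C) {t : ℕ}
    (ht : finrank (ZMod p) U = t)
    (hbig : dens W C 0 * p ^ finrank (ZMod p) W * p ^ t + p ^ t < (p : ℝ) ^ finrank (ZMod p) W) :
    ∃ U' : Submodule (ZMod p) V, U' ≤ W ∧ finrank (ZMod p) U' = t + 1 ∧ ∀ u ∈ U', u ∉ C := by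
  classical
  have hp0 : (0 : ℝ) < p := by exact_mod_cast (Fact.out : p.Prime).pos
  set S : Finset V := (sf W).filter (fun w => 0 + w ∈ C) with hS
  have hScard : (S.card : ℝ) = dens W C 0 * p ^ finrank (ZMod p) W := by
    rw [dens_eq_card, card_sf]
    push_cast
    rw [div_mul_cancel₀ _ (by positivity)]
  set bad : Finset V := (S ×ˢ sf U).image (fun q => q.1 - q.2) ∪ sf U with hbad
  have hbadcard : (bad.card : ℝ) < p ^ finrank (ZMod p) W := by
    have h1 : bad.card ≤ S.card * p ^ t + p ^ t := by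
      calc bad.card ≤ ((S ×ˢ sf U).image (fun q => q.1 - q.2)).card + (sf U).card :=
            Finset.card_union_le _ _
        _ ≤ (S ×ˢ sf U).card + (sf U).card := Nat.add_le_add_right Finset.card_image_le _
        _ = S.card * p ^ t + p ^ t := by rw [Finset.card_product, card_sf, ht]
    have h2 : (bad.card : ℝ) ≤ S.card * p ^ t + p ^ t := by exact_mod_cast h1
    rw [hScard] at h2
    linarith
  obtain ⟨y, hy, hybad⟩ : ∃ y ∈ sf W, y ∉ bad := by
    by_contra hcon
    push Not at hcon
    have h1 : sf W ⊆ bad := fun w hw => hcon w hw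
    have h2 := Finset.card_le_card h1
    rw [card_sf] at h2
    have h3 : (p : ℝ) ^ finrank (ZMod p) W ≤ bad.card := by exact_mod_cast h2
    linarith
  rw [mem_sf] at hy
  have hyU : y ∉ U := fun h => hybad (Finset.mem_union_right _ (mem_sf.mpr h))
  have hyu : ∀ u ∈ U, y + u ∉ C := by
    intro u hu h
    apply hybad
    rw [hbad]
    refine Finset.mem_union_left _ ?_
    rw [Finset.mem_image]
    refine ⟨(y + u, u), ?_, add_sub_cancel_right y u⟩
    rw [Finset.mem_product]
    refine ⟨?_, mem_sf.mpr hu⟩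
    rw [hS, Finset.mem_filter, mem_sf, zero_add]
    exact ⟨W.add_mem hy (hU hu), h⟩
  have hy0 : y ≠ 0 := fun h => hyU (by rw [h]; exact U.zero_mem)
  refine ⟨U ⊔ Submodule.span (ZMod p) {y}, ?_, ?_, ?_⟩
  · refine sup_le hU ?_
    rw [Submodule.span_singleton_le_iff_mem]
    exact hy
  · have h1 := Submodule.finrank_sup_add_finrank_inf_eq U (Submodule.span (ZMod p) {y})
    have h2 : U ⊓ Submodule.span (ZMod p) {y} = ⊥ := by
      rw [← disjoint_iff]
      rw [Submodule.disjoint_span_singleton' hy0]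
      exact hyU
    rw [h2, finrank_bot, finrank_span_singleton hy0, ht] at h1
    omega
  · intro v hv
    rw [Submodule.mem_sup] at hv
    obtain ⟨u, hu, z, hz, rfl⟩ := hv
    rw [Submodule.mem_span_singleton] at hz
    obtain ⟨c, rfl⟩ := hz
    by_cases hc : c = 0
    · rw [hc, zero_smul, add_zero]; exact hUC u hu
    · intro hmem
      have h1 := hsc c⁻¹ (inv_ne_zero hc) _ hmem
      rw [smul_add, smul_smul, inv_mul_cancel₀ hc, one_smul, add_comm] at h1
      exact hyu _ (U.smul_mem _ hu) h1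

/-- A symmetric set of density less than `p^(-d)` in a subspace of dimension at least `d` is
missed by a subspace of dimension `d`. -/
lemma missed (C : Set V) (h0 : (0 : V) ∉ C) (hsc : ∀ c : ZMod p, c ≠ 0 → ∀ v ∈ C, c • v ∈ C)
    {d : ℕ} (W : Submodule (ZMod p) V) (hW : d ≤ finrank (ZMod p) W)
    (hsparse : dens W C 0 * p ^ d < 1) :
    ∃ U : Submodule (ZMod p) V, U ≤ W ∧ finrank (ZMod p) U = d ∧ ∀ u ∈ U, u ∉ C := by
  classical
  have hp2 : 2 ≤ p := (Fact.out : p.Prime).two_le
  have hp0 : (0 : ℝ) < p := by exact_mod_cast (Fact.out : p.Prime).pos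
  set n := finrank (ZMod p) W with hn
  -- the number of points of `C`
  have hcount : dens W C 0 * p ^ n + 1 ≤ (p : ℝ) ^ (n - d) := by
    have e1 : (p : ℝ) ^ n = p ^ (n - d) * p ^ d := by rw [← pow_add]; congr 1; omega
    have e2 : (((sf W).filter (fun w => 0 + w ∈ C)).card : ℝ) = dens W C 0 * p ^ n := by
      rw [dens_eq_card, card_sf]
      push_cast
      rw [div_mul_cancel₀ _ (by positivity)]
    have h1 : (((sf W).filter (fun w => 0 + w ∈ C)).card : ℝ) < ((p ^ (n - d) : ℕ) : ℝ) := by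
      rw [e2, e1]
      push_cast
      have : (0 : ℝ) < p ^ (n - d) := by positivity
      calc dens W C 0 * (p ^ (n - d) * p ^ d) = (dens W C 0 * p ^ d) * p ^ (n - d) := by ring
        _ < 1 * p ^ (n - d) := mul_lt_mul_of_pos_right hsparse this
        _ = p ^ (n - d) := one_mul _
    have h2 : ((sf W).filter (fun w => 0 + w ∈ C)).card + 1 ≤ p ^ (n - d) := by
      exact_mod_cast h1
    rw [← e2]
    exact_mod_cast h2
  have key : ∀ t ≤ d, ∃ U : Submodule (ZMod p) V, U ≤ W ∧ finrank (ZMod p) U = t ∧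
      ∀ u ∈ U, u ∉ C := by
    intro t
    induction t with
    | zero =>
      intro _
      refine ⟨⊥, bot_le, finrank_bot _ _, fun u hu => ?_⟩
      rw [Submodule.mem_bot] at hu
      rw [hu]; exact h0
    | succ t ih =>
      intro ht
      obtain ⟨U, hUW, hUt, hUC⟩ := ih (by omega)
      refine extend_step C hsc hUW hUC hUt ?_
      rw [← hn]
      have hpt : (0 : ℝ) < (p : ℝ) ^ t := by positivity
      calc dens W C 0 * p ^ n * p ^ t + p ^ t = (dens W C 0 * p ^ n + 1) * p ^ t := by ring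
        _ ≤ (p : ℝ) ^ (n - d) * p ^ t := mul_le_mul_of_nonneg_right hcount hpt.le
        _ = (p : ℝ) ^ (n - d + t) := by rw [pow_add]
        _ < (p : ℝ) ^ n := by
          refine pow_lt_pow_right₀ ?_ (by omega)
          exact_mod_cast (Fact.out : p.Prime).one_lt
  exact key d le_rfl

end Pool.Agent.H35.KP
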