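import Pool.Agent.H35.KP.Incr

set_option autoImplicit false

open Finset Function Module
open scoped BigOperators

namespace Pool.Agent.H35.KP

open Pool.Agent.H77.KM

universe u

/-- The indicator function of a set. -/
noncomputable def ind {V : Type u} (A : Set V) (x : V) : ℝ := by
  classical exact if x ∈ A then 1 else 0

section Ind

variable {V : Type u}

lemma ind_cases (A : Set V) (x : V) : ind A x = 0 ∨ ind A x = 1 := by
  classical
  unfold ind
  split_ifs <;> simp

lemma ind_of_mem {A : Set V} {x : V} (h : x ∈ A) : ind A x = 1 := by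
  classical
  simp [ind, h]

lemma ind_of_notMem {A : Set V} {x : V} (h : x ∉ A) : ind A x = 0 := by
  classical
  simp [ind, h]

lemma ind_nonneg (A : Set V) (x : V) : 0 ≤ ind A x := by
  rcases ind_cases A x with h | h <;> rw [h] <;> norm_num

lemma ind_le_one (A : Set V) (x : V) : ind A x ≤ 1 := by
  rcases ind_cases A x with h | h <;> rw [h] <;> norm_num

lemma ind_mono {A B : Set V} (h : A ⊆ B) (x : V) : ind A x ≤ ind B x := by
  by_cases hx : x ∈ A
  · rw [ind_of_mem hx, ind_of_mem (h hx)]
  · rw [ind_of_notMem hx]; exact ind_nonneg B x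

lemma ind_inter (A B : Set V) (x : V) : ind (A ∩ B) x = ind A x * ind B x := by
  by_cases hA : x ∈ A
  · by_cases hB : x ∈ B
    · have hAB : x ∈ A ∩ B := ⟨hA, hB⟩
      rw [ind_of_mem hA, ind_of_mem hB, ind_of_mem hAB, one_mul]
    · have hAB : x ∉ A ∩ B := fun h => hB h.2
      rw [ind_of_notMem hB, ind_of_notMem hAB, mul_zero]
  · have hAB : x ∉ A ∩ B := fun h => hA h.1
    rw [ind_of_notMem hA, ind_of_notMem hAB, zero_mul]

end Ind

variable {p : ℕ} [Fact p.Prime] {V : Type u} [AddCommGroup V] [Module (ZMod p) V] [Fintype V]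

/-- Averages over a subspace, seen as averages over the type of its elements. -/
lemma expect_sf_eq (W : Submodule (ZMod p) V) [Fintype W] (F : V → ℝ) :
    𝔼 w ∈ sf W, F w = 𝔼 w : W, F w := by
  symm
  refine Finset.expect_bij (fun w _ => (w : V)) (fun w _ => mem_sf.mpr w.2)
    (fun w _ => rfl) (fun w _ w' _ h => Subtype.ext h) (fun v hv => ?_)
  exact ⟨⟨v, mem_sf.mp hv⟩, Finset.mem_univ _, rfl⟩

lemma expect_sf_map (W : Submodule (ZMod p) V) [Fintype W] (W' : Submodule (ZMod p) W)
    (F : V → ℝ) : 𝔼 w ∈ sf (W'.map W.subtype), F w = 𝔼 w ∈ sf W', F (w : V) := by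
  symm
  refine Finset.expect_bij (fun w _ => (w : V)) (fun w hw => ?_)
    (fun w _ => rfl) (fun w _ w' _ h => Subtype.ext h) (fun v hv => ?_)
  · rw [mem_sf] at hw ⊢
    exact ⟨w, hw, rfl⟩
  · rw [mem_sf] at hv
    obtain ⟨w, hw, rfl⟩ := hv
    exact ⟨w, mem_sf.mpr hw, rfl⟩

lemma card_sf (W : Submodule (ZMod p) V) : (sf W).card = p ^ finrank (ZMod p) W := by
  classical
  have h1 : Fintype.card W = (sf W).card := by
    rw [← Finset.card_univ]
    refine Finset.card_bij (fun w _ => (w : V)) (fun w _ => mem_sf.mpr w.2)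
      (fun w _ w' _ h => Subtype.ext h) (fun v hv => ?_)
    exact ⟨⟨v, mem_sf.mp hv⟩, Finset.mem_univ _, rfl⟩
  rw [← h1, Module.card_eq_pow_finrank (K := ZMod p) (V := W), ZMod.card]

/-- The density of `A` on the coset `y + H`. -/
noncomputable def dens (H : Submodule (ZMod p) V) (A : Set V) (y : V) : ℝ :=
  avg (sf H) (ind A) y

/-- The density of `A` on a coset, as a quotient of cardinalities. -/
lemma dens_eq_card (A : Set V) [DecidablePred (· ∈ A)] (W : Submodule (ZMod p) V) (x : V) :
    dens W A x = ((sf W).filter (fun w => x + w ∈ A)).card / (sf W).card := by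
  classical
  unfold dens avg
  rw [Finset.expect_eq_sum_div_card]
  congr 1
  rw [Finset.card_filter]
  push_cast
  refine Finset.sum_congr rfl (fun w _ => ?_)
  by_cases h : x + w ∈ A
  · rw [ind_of_mem h, if_pos h]
  · rw [ind_of_notMem h, if_neg h]

lemma dens_nonneg (H : Submodule (ZMod p) V) (A : Set V) (y : V) : 0 ≤ dens H A y :=
  avg_nonneg _ (ind_nonneg A) y

lemma dens_le_one (H : Submodule (ZMod p) V) (A : Set V) (y : V) : dens H A y ≤ 1 :=
  avg_le _ (sf_nonempty H) (ind_le_one A) y

lemma dens_mono (H : Submodule (ZMod p) V) {A B : Set V} (h : A ⊆ B) (y : V) :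
    dens H A y ≤ dens H B y :=
  Finset.expect_le_expect (fun _ _ => ind_mono h _)

lemma dens_union (H : Submodule (ZMod p) V) (A B : Set V) (y : V) :
    dens H (A ∪ B) y ≤ dens H A y + dens H B y := by
  unfold dens avg
  rw [← Finset.expect_add_distrib]
  refine Finset.expect_le_expect (fun w _ => ?_)
  by_cases hA : y + w ∈ A
  · have hAB : y + w ∈ A ∪ B := Or.inl hA
    rw [ind_of_mem hA, ind_of_mem hAB]
    linarith [ind_nonneg B (y + w)]
  · by_cases hB : y + w ∈ B
    · rw [ind_of_mem hB]
      linarith [ind_nonneg A (y + w), ind_le_one (A ∪ B) (y + w)]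
    · have hAB : y + w ∉ A ∪ B := fun h => h.elim hA hB
      rw [ind_of_notMem hA, ind_of_notMem hB, ind_of_notMem hAB]
      norm_num

/-- If the density of `A` exceeds that of `B`, there is a point of `A` outside `B`. -/
lemma exists_of_dens_lt {H : Submodule (ZMod p) V} {A B : Set V} {y : V}
    (h : dens H B y < dens H A y) : ∃ w ∈ H, y + w ∈ A ∧ y + w ∉ B := by
  by_contra hcon
  push Not at hcon
  refine absurd h (not_lt.mpr ?_)
  unfold dens avg
  refine Finset.expect_le_expect (fun w hw => ?_)
  rw [mem_sf] at hw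
  by_cases hA : y + w ∈ A
  · rw [ind_of_mem (hcon w hw hA)]; exact ind_le_one _ _
  · rw [ind_of_notMem hA]; exact ind_nonneg _ _

lemma exists_of_dens_pos {H : Submodule (ZMod p) V} {A : Set V} {y : V}
    (h : 0 < dens H A y) : ∃ w ∈ H, y + w ∈ A := by
  have h0 : dens H (∅ : Set V) y = 0 := by
    unfold dens avg
    refine Finset.expect_eq_zero (fun w _ => ?_)
    exact ind_of_notMem (Set.notMem_empty _)
  obtain ⟨w, hw, h1, _⟩ := exists_of_dens_lt (H := H) (A := A) (B := ∅) (y := y)
    (by rw [h0]; exact h)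
  exact ⟨w, hw, h1⟩

/-- A subspace has small density on every coset of a much larger subspace. -/
lemma dens_subspace_le (H W : Submodule (ZMod p) V) (y : V) :
    dens H (W : Set V) y ≤ p ^ finrank (ZMod p) W / p ^ finrank (ZMod p) H := by
  classical
  rw [dens_eq_card, card_sf]
  push_cast
  refine div_le_div_of_nonneg_right ?_ (by positivity)
  have h1 : ((sf H).filter (fun w => y + w ∈ (W : Set V))).card ≤ (sf W).card := by
    refine Finset.card_le_card_of_injOn (fun w => y + w) (fun w hw => ?_) ?_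
    · rw [Finset.mem_coe, Finset.mem_filter] at hw
      rw [Finset.mem_coe, mem_sf]
      exact hw.2
    · intro w _ w' _ h
      exact add_left_cancel h
  rw [card_sf] at h1
  exact_mod_cast h1

/-- Averages over a coset of a smaller subspace bound averages over a coset of a larger one. -/
lemma dens_eq_avg_dens {H H' : Submodule (ZMod p) V} (hle : H' ≤ H) (A : Set V) (y : V) :
    dens H A y = 𝔼 h ∈ sf H, dens H' A (y + h) := by
  unfold dens avg
  rw [Finset.expect_comm]
  have h1 : ∀ h' ∈ sf H', 𝔼 h ∈ sf H, ind A (y + h + h') = 𝔼 h ∈ sf H, ind A (y + h) := by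
    intro h' hh'
    rw [mem_sf] at hh'
    have := expect_sf_add H (fun w => ind A (y + w)) (hle hh')
    simp only [← add_assoc] at this
    exact this
  rw [Finset.expect_congr rfl h1, Finset.expect_const (sf_nonempty H')]

lemma expect_eq_dens (H : Submodule (ZMod p) V) [Fintype H] (A : Set V) (y : V) :
    𝔼 h : H, ind A (y + (h : V)) = dens H A y := by
  rw [← expect_sf_eq H (fun w => ind A (y + w))]
  rfl

lemma avg_sub_eq_dens (H : Submodule (ZMod p) V) [Fintype H] (W : Submodule (ZMod p) H)
    (A : Set V) (y : V) (x0 : H) :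
    avg (sf W) (fun h : H => ind A (y + (h : V))) x0 = dens (W.map H.subtype) A (y + x0) := by
  unfold dens avg
  rw [expect_sf_map H W (fun w => ind A (y + x0 + w))]
  refine Finset.expect_congr rfl (fun w _ => ?_)
  show ind A (y + ((x0 + w : H) : V)) = _
  rw [Submodule.coe_add, add_assoc]

/-- The unpopular differences of `A` on the coset `y + H`. -/
def Unpop (H : Submodule (ZMod p) V) (A : Set V) (y : V) : Set V :=
  {z | dens H (A ∩ {v | v + z ∈ A}) y ≤ 1 / 8 * dens H A y ^ 2}

/-- The relative increment step: many unpopular differences. -/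
lemma pop_rel (H : Submodule (ZMod p) V) (A : Set V) (y : V) {d : ℕ} (hd : 1 ≤ d)
    (hα : (1 / 2 : ℝ) ^ d ≤ dens H A y)
    (hγ : (1 / 2 : ℝ) ^ (d + 1) < dens H (Unpop H A y) 0) :
    ∃ H' ≤ H, finrank (ZMod p) H ≤ finrank (ZMod p) H' + stepDim d ∧
      ∃ y', 135 / 128 * dens H A y ≤ dens H' A y' := by
  classical
  have hα' : (1 / 2 : ℝ) ^ d ≤ 𝔼 h : H, ind A (y + (h : V)) := by rwa [expect_eq_dens]
  have hγ' : (1 / 2 : ℝ) ^ (d + 1) < 𝔼 h : H, ind (Unpop H A y) (0 + (h : V)) := by
    rwa [expect_eq_dens]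
  obtain ⟨W, hW, x0, hx0⟩ := increment_pop p (V := H) (fun h => ind A (y + (h : V)))
    (fun h => ind (Unpop H A y) (0 + (h : V)))
    (fun h => ind_cases A _) (fun h => ind_cases _ _)
    (fun z hz => by
      have hz' : (z : V) ∈ Unpop H A y := by
        by_contra hcon
        rw [zero_add, ind_of_notMem hcon] at hz
        norm_num at hz
      have e1 : corr (fun h : H => ind A (y + (h : V))) (fun h : H => ind A (y + (h : V))) z
          = dens H (A ∩ {v | v + z ∈ A}) y := by
        rw [← expect_eq_dens]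
        unfold corr
        refine Finset.expect_congr rfl (fun h _ => ?_)
        rw [ind_inter]
        congr 1
        show ind A (y + ((h + z : H) : V)) = _
        rw [Submodule.coe_add, ← add_assoc]
        by_cases hm : y + (h : V) + z ∈ A
        · rw [ind_of_mem hm, ind_of_mem (show y + (h : V) ∈ {v | v + (z : V) ∈ A} from hm)]
        · rw [ind_of_notMem hm, ind_of_notMem (show y + (h : V) ∉ {v | v + (z : V) ∈ A} from hm)]
      rw [e1, expect_eq_dens]
      exact hz')
    hd hα' hγ'
  refine ⟨W.map H.subtype, Submodule.map_subtype_le H W, ?_, ?_⟩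
  · rw [Submodule.finrank_map_subtype_eq]
    exact hW
  · rw [expect_eq_dens, avg_sub_eq_dens] at hx0
    exact ⟨_, hx0⟩

end Pool.Agent.H35.KP
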