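import Pool.Agent.H35.KP.Main

set_option autoImplicit false

open Finset Function Module

namespace Pool.Agent.H35.KP

universe u

variable {V : Type u} [AddCommGroup V] [Module (ZMod 3) V] [Fintype V]

/-- If no line has exactly two points in each of two complementary symmetric sets, then one of
the two sets does not span. -/
theorem not_both_span (R B : Set V) (h0R : (0 : V) ∉ R) (h0B : (0 : V) ∉ B)
    (hcov : ∀ v : V, v ≠ 0 → v ∈ R ∨ v ∈ B) (hRB : ∀ v ∈ R, v ∉ B)
    (hR : ∀ v ∈ R, -v ∈ R) (hB : ∀ v ∈ B, -v ∈ B)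
    (hno : ∀ u ∈ R, ∀ v ∈ R, u + v ∈ B → u - v ∈ B → False) (n : ℕ) :
    ∀ H : Submodule (ZMod 3) V, finrank (ZMod 3) H = n → H ≠ ⊥ →
      Submodule.span (ZMod 3) (R ∩ H) = H → Submodule.span (ZMod 3) (B ∩ H) = H → False := by
  classical
  -- the two local rules
  have rule1 : ∀ h ∈ R, ∀ y ∈ B, y + h ∈ B → y - h ≠ 0 → y - h ∈ B := by
    intro h hh y hy hyh hne
    by_contra hcon
    have hr : y - h ∈ R := (hcov _ hne).resolve_right hcon
    refine hno h hh (y - h) hr ?_ ?_
    · rw [add_sub_cancel]; exact hy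
    · have e : h - (y - h) = -(y + h) := by
        have h3 := add3 h
        calc h - (y - h) = (h + h + h) + -(y + h) := by abel
          _ = -(y + h) := by rw [h3, zero_add]
      rw [e]; exact hB _ hyh
  have rule2 : ∀ k ∈ B, ∀ y ∈ B, y + k ∈ R → y - k ∈ R → False := by
    intro k hk y hy h1 h2
    refine hno _ h1 _ h2 ?_ ?_
    · have e : y + k + (y - k) = -y := by
        rw [← add_self3 y]; abel
      rw [e]; exact hB _ hy
    · have e : y + k - (y - k) = -k := by
        rw [← add_self3 k]; abel
      rw [e]; exact hB _ hk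
  induction n using Nat.strong_induction_on with
  | _ n ih =>
  intro H hn hbot hRH hBH
  -- a maximal proper subspace spanned by red vectors
  obtain ⟨H', hH'le, hH'ne, hH'span, hmax⟩ : ∃ H' : Submodule (ZMod 3) V, H' ≤ H ∧ H' ≠ H ∧
      Submodule.span (ZMod 3) (R ∩ H') = H' ∧
      ∀ S : Submodule (ZMod 3) V, S ≤ H → Submodule.span (ZMod 3) (R ∩ S) = S → H' < S →
        S = H := by
    have hfin : Finite (Submodule (ZMod 3) V) :=
      Finite.of_injective (fun S => (S : Set V)) SetLike.coe_injective
    have hne : {S : Submodule (ZMod 3) V | S ≤ H ∧ S ≠ H ∧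
        Submodule.span (ZMod 3) (R ∩ S) = S}.Nonempty := by
      refine ⟨⊥, bot_le, hbot.symm, ?_⟩
      rw [eq_bot_iff, Submodule.span_le]
      exact Set.inter_subset_right
    obtain ⟨S, hS, hSmax⟩ := Set.Finite.exists_maximal (Set.toFinite _) hne
    refine ⟨S, hS.1, hS.2.1, hS.2.2, fun S' h1 h2 h3 => ?_⟩
    by_contra hcon
    exact absurd (hSmax ⟨h1, hcon, h2⟩ h3.le) (not_le_of_gt h3)
  -- a red vector outside
  obtain ⟨r, hr, hrH, hrH'⟩ : ∃ r ∈ R, r ∈ H ∧ r ∉ H' := by
    by_contra hcon
    push Not at hcon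
    apply hH'ne
    refine le_antisymm hH'le ?_
    rw [← hRH, Submodule.span_le]
    rintro v ⟨h1, h2⟩
    exact hcon v h1 h2
  have hsup : H' ⊔ Submodule.span (ZMod 3) {r} = H := by
    apply hmax
    · refine sup_le hH'le ?_
      rw [Submodule.span_singleton_le_iff_mem]
      exact hrH
    · refine le_antisymm ?_ ?_
      · rw [Submodule.span_le]
        exact Set.inter_subset_right
      · refine sup_le ?_ ?_
        · conv_lhs => rw [← hH'span]
          refine Submodule.span_mono (Set.inter_subset_inter_right _ ?_)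
          exact fun v hv => Submodule.mem_sup_left hv
        · rw [Submodule.span_singleton_le_iff_mem]
          exact Submodule.subset_span ⟨hr, Submodule.mem_sup_right
            (Submodule.mem_span_singleton_self r)⟩
    · refine lt_of_le_of_ne le_sup_left (fun h => hrH' ?_)
      rw [h]
      exact Submodule.mem_sup_right (Submodule.mem_span_singleton_self r)
  have hlt : H' < H := lt_of_le_of_ne hH'le hH'ne
  -- a blue vector outside
  obtain ⟨b, hb, hbH, hbH'⟩ : ∃ b ∈ B, b ∈ H ∧ b ∉ H' := by
    by_contra hcon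
    push Not at hcon
    apply hH'ne
    refine le_antisymm hH'le ?_
    rw [← hBH, Submodule.span_le]
    rintro v ⟨h1, h2⟩
    exact hcon v h1 h2
  -- every vector of `H` is in `H'`, `b + H'` or `-b + H'`
  have hdec : ∀ v ∈ H, v ∈ H' ∨ v - b ∈ H' ∨ v + b ∈ H' := by
    have hdr : ∀ v ∈ H, ∃ c : ZMod 3, v - c • r ∈ H' := by
      intro v hv
      rw [← hsup, Submodule.mem_sup] at hv
      obtain ⟨u, hu, x, hx, rfl⟩ := hv
      rw [Submodule.mem_span_singleton] at hx
      obtain ⟨c, rfl⟩ := hx
      exact ⟨c, by rwa [add_sub_cancel_right]⟩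
    obtain ⟨cb, hcb⟩ := hdr b hbH
    intro v hv
    obtain ⟨c, hc⟩ := hdr v hv
    have hcb0 : cb ≠ 0 := by
      rintro rfl
      rw [zero_smul, sub_zero] at hcb
      exact hbH' hcb
    have hcases : c = 0 ∨ c = cb ∨ c = -cb := by
      revert hcb0
      generalize cb = y
      generalize c = x
      revert x y
      decide
    rcases hcases with rfl | rfl | rfl
    · left; rwa [zero_smul, sub_zero] at hc
    · right; left
      have := H'.sub_mem hc hcb
      have e : v - c • r - (b - c • r) = v - b := by abel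
      rwa [e] at this
    · right; right
      have := H'.add_mem hc hcb
      have e : v - -cb • r + (b - cb • r) = v + b := by rw [neg_smul]; abel
      rwa [e] at this
  have hrB : ¬ (∀ v ∈ H', b + v ∈ B) := by
    intro hall
    rcases hdec r hrH with h | h | h
    · exact hrH' h
    · have := hall _ h
      rw [add_sub_cancel] at this
      exact hRB r hr this
    · have := hall _ (H'.neg_mem h)
      have e : b + -(r + b) = -r := by abel
      rw [e] at this
      exact hRB _ (hR _ hr) this
  -- the smaller space is not trivial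
  have hH'bot : H' ≠ ⊥ := by
    rintro rfl
    apply hrB
    intro v hv
    rw [(Submodule.mem_bot _).mp hv, add_zero]
    exact hb
  have hfin : finrank (ZMod 3) H' < n := by
    rw [← hn]
    exact Submodule.finrank_lt_finrank_of_lt hlt
  have hK : ∃ x ∈ H', x ∉ Submodule.span (ZMod 3) (B ∩ (H' : Set V)) := by
    by_contra hcon
    push Not at hcon
    refine ih _ hfin H' rfl hH'bot hH'span (le_antisymm ?_ hcon)
    rw [Submodule.span_le]
    exact Set.inter_subset_right
  obtain ⟨x, hxH', hx⟩ := hK
  obtain ⟨f, hfx, hfker⟩ := Submodule.exists_le_ker_of_notMem hx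
  -- elements outside the kernel are red
  have hred : ∀ v ∈ H', f v ≠ 0 → v ∈ R := by
    intro v hv hfv
    have hv0 : v ≠ 0 := by rintro rfl; exact hfv (map_zero f)
    refine (hcov v hv0).resolve_right (fun hvB => hfv ?_)
    have := hfker (Submodule.subset_span ⟨hvB, hv⟩)
    rwa [LinearMap.mem_ker] at this
  have hbne : ∀ v ∈ H', b + v ≠ 0 := by
    intro v hv h0
    apply hbH'
    rw [add_eq_zero_iff_eq_neg] at h0
    rw [h0]; exact H'.neg_mem hv
  -- the third point rule
  have third : ∀ k ∈ H', ∀ k' ∈ H', b + k ∈ B → b + k' ∈ B → f k ≠ f k' →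
      b + -(k + k') ∈ B := by
    intro k hk k' hk' h1 h2 hf
    have hdir : k' - k ∈ R := by
      refine hred _ (H'.sub_mem hk' hk) ?_
      rw [map_sub, sub_ne_zero]
      exact hf.symm
    have e : b + k - (k' - k) = b + -(k + k') := by
      have h3 := add3 k
      calc b + k - (k' - k) = b + -(k + k') + (k + k + k) := by abel
        _ = b + -(k + k') := by rw [h3, add_zero]
    have := rule1 _ hdir _ h1 (by
      have e2 : b + k + (k' - k) = b + k' := by abel
      rw [e2]; exact h2) (by
      rw [e]; exact hbne _ (H'.neg_mem (H'.add_mem hk hk')))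
    rwa [e] at this
  by_cases hP : ∀ v ∈ H', b + v ∈ B → f v = 0
  · -- all blue points lie in a smaller subspace
    have h1 : (B ∩ H : Set V) ⊆ ((H' ⊓ LinearMap.ker f ⊔ Submodule.span (ZMod 3) {b} :
        Submodule (ZMod 3) V) : Set V) := by
      rintro v ⟨hvB, hvH⟩
      have hbmem := Submodule.mem_span_singleton_self (R := ZMod 3) b
      rcases hdec v hvH with h | h | h
      · refine Submodule.mem_sup_left ⟨h, ?_⟩
        exact hfker (Submodule.subset_span ⟨hvB, h⟩)
      · have h2 : f (v - b) = 0 := hP _ h (by rwa [add_sub_cancel])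
        have h3 := Submodule.add_mem (H' ⊓ LinearMap.ker f ⊔ Submodule.span (ZMod 3) {b})
          (Submodule.mem_sup_left (show v - b ∈ H' ⊓ LinearMap.ker f from ⟨h, h2⟩))
          (Submodule.mem_sup_right hbmem)
        rwa [sub_add_cancel] at h3
      · have h2 : f (-(v + b)) = 0 := hP _ (H'.neg_mem h) (by
          have e : b + -(v + b) = -v := by abel
          rw [e]; exact hB _ hvB)
        rw [map_neg, neg_eq_zero] at h2
        have h3 := Submodule.sub_mem (H' ⊓ LinearMap.ker f ⊔ Submodule.span (ZMod 3) {b})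
          (Submodule.mem_sup_left (show v + b ∈ H' ⊓ LinearMap.ker f from ⟨h, h2⟩))
          (Submodule.mem_sup_right hbmem)
        rwa [add_sub_cancel_right] at h3
    have h2 : H ≤ H' ⊓ LinearMap.ker f ⊔ Submodule.span (ZMod 3) {b} := by
      rw [← hBH, Submodule.span_le]
      exact h1
    have h3 := h2 (hH'le hxH')
    rw [Submodule.mem_sup] at h3
    obtain ⟨u, hu, z, hz, hxz⟩ := h3
    rw [Submodule.mem_span_singleton] at hz
    obtain ⟨c, rfl⟩ := hz
    by_cases hc : c = 0
    · apply hfx
      rw [← hxz, hc, zero_smul, add_zero]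
      exact hu.2
    · apply hbH'
      have h4 : c • b ∈ H' := by
        have : c • b = x - u := by rw [← hxz, add_sub_cancel_left]
        rw [this]; exact H'.sub_mem hxH' hu.1
      have h5 := H'.smul_mem c⁻¹ h4
      rwa [smul_smul, inv_mul_cancel₀ hc, one_smul] at h5
  · push Not at hP
    obtain ⟨h, hhH', hhB, hfh⟩ := hP
    have hb0 : b + 0 ∈ B := by rwa [add_zero]
    -- the three cosets
    have hnh : b + -h ∈ B := by
      have := third 0 H'.zero_mem h hhH' hb0 hhB (by rw [map_zero]; exact hfh.symm)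
      rwa [zero_add] at this
    have hfh2 : f h ≠ f (-h) := by
      rw [map_neg]
      intro h1
      apply hfh
      have : ∀ a : ZMod 3, a = -a → a = 0 := by decide
      exact this _ h1
    -- translation of the rule to the cosets of the kernel
    have hfK : ∀ {k : V}, k ∈ H' ⊓ LinearMap.ker f → f k = 0 := fun hk => hk.2
    have A01 : ∀ k ∈ H' ⊓ LinearMap.ker f, b + k ∈ B → b + (h + -k) ∈ B := by
      intro k hk hkB
      have := third k hk.1 (-h) (H'.neg_mem hhH') hkB hnh (by
        rw [hfK hk, map_neg]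
        exact fun h1 => hfh (neg_eq_zero.mp h1.symm))
      have e : -(k + -h) = h + -k := by abel
      rwa [e] at this
    have A02 : ∀ k ∈ H' ⊓ LinearMap.ker f, b + k ∈ B → b + (-h + -k) ∈ B := by
      intro k hk hkB
      have := third k hk.1 h hhH' hkB hhB (by rw [hfK hk]; exact hfh.symm)
      have e : -(k + h) = -h + -k := by abel
      rwa [e] at this
    have A10 : ∀ k ∈ H' ⊓ LinearMap.ker f, b + (h + k) ∈ B → b + -k ∈ B := by
      intro k hk hkB
      have := third (h + k) (H'.add_mem hhH' hk.1) (-h) (H'.neg_mem hhH') hkB hnh (by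
        rw [map_add, hfK hk, add_zero]; exact hfh2)
      have e : -(h + k + -h) = -k := by abel
      rwa [e] at this
    have A20 : ∀ k ∈ H' ⊓ LinearMap.ker f, b + (-h + k) ∈ B → b + -k ∈ B := by
      intro k hk hkB
      have := third (-h + k) (H'.add_mem (H'.neg_mem hhH') hk.1) h hhH' hkB hhB (by
        rw [map_add, hfK hk, add_zero]; exact hfh2.symm)
      have e : -(-h + k + h) = -k := by abel
      rwa [e] at this
    have A12 : ∀ k ∈ H' ⊓ LinearMap.ker f, b + (h + k) ∈ B → b + (-h + -k) ∈ B := by
      intro k hk hkB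
      have := third (h + k) (H'.add_mem hhH' hk.1) 0 H'.zero_mem hkB hb0 (by
        rw [map_add, hfK hk, add_zero, map_zero]; exact hfh)
      have e : -(h + k + 0) = -h + -k := by abel
      rwa [e] at this
    -- symmetry
    have hneg : ∀ k ∈ H' ⊓ LinearMap.ker f, b + k ∈ B → b + -k ∈ B := by
      intro k hk hkB
      have h1 := A01 k hk hkB
      have h2 := A12 (-k) (Submodule.neg_mem _ hk) h1
      rw [neg_neg] at h2
      exact A20 k hk h2
    have hadd : ∀ k ∈ H' ⊓ LinearMap.ker f, ∀ k' ∈ H' ⊓ LinearMap.ker f, b + k ∈ B →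
        b + k' ∈ B → b + (k + k') ∈ B := by
      intro k hk k' hk' h1 h2
      have h3 := A01 k' hk' h2
      have h4 := third k hk.1 (h + -k') (H'.add_mem hhH' (H'.neg_mem hk'.1)) h1 h3 (by
        rw [map_add, map_neg, hfK hk, hfK hk', neg_zero, add_zero]; exact hfh.symm)
      have e : -(k + (h + -k')) = -h + (k' + -k) := by abel
      rw [e] at h4
      have h5 := A20 _ (Submodule.add_mem _ hk' (Submodule.neg_mem _ hk)) h4
      have e2 : -(k' + -k) = k + -k' := by abel
      rw [e2] at h5
      -- replace `k'` by `-k'`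
      have h6 := hneg k' hk' h2
      have h3' := A01 (-k') (Submodule.neg_mem _ hk') h6
      rw [neg_neg] at h3'
      have h4' := third k hk.1 (h + k') (H'.add_mem hhH' hk'.1) h1 h3' (by
        rw [map_add, hfK hk, hfK hk', add_zero]; exact hfh.symm)
      have e3 : -(k + (h + k')) = -h + -(k + k') := by abel
      rw [e3] at h4'
      have h7 := A20 _ (Submodule.neg_mem _ (Submodule.add_mem _ hk hk')) h4'
      rwa [neg_neg] at h7
    set P : Submodule (ZMod 3) V :=
      { carrier := {k | k ∈ H' ⊓ LinearMap.ker f ∧ b + k ∈ B}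
        add_mem' := by
          rintro k k' ⟨h1, h2⟩ ⟨h3, h4⟩
          exact ⟨Submodule.add_mem _ h1 h3, hadd k h1 k' h3 h2 h4⟩
        zero_mem' := ⟨Submodule.zero_mem _, hb0⟩
        smul_mem' := by
          rintro c k ⟨h1, h2⟩
          rcases zmod3_cases c with rfl | rfl | rfl
          · rw [zero_smul]; exact ⟨Submodule.zero_mem _, hb0⟩
          · rw [one_smul]; exact ⟨h1, h2⟩
          · rw [neg_smul, one_smul]; exact ⟨Submodule.neg_mem _ h1, hneg k h1 h2⟩ } with hPdef
    have hPmem : ∀ {k : V}, k ∈ P ↔ k ∈ H' ⊓ LinearMap.ker f ∧ b + k ∈ B := fun {k} => Iff.rfl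
    -- the values of `f`
    have hfcases : ∀ v : V, f v = 0 ∨ f v = f h ∨ f v = -f h := by
      intro v
      have : ∀ a c : ZMod 3, c ≠ 0 → a = 0 ∨ a = c ∨ a = -c := by decide
      exact this _ _ hfh
    have hBsub : (B ∩ H : Set V) ⊆ ((P ⊔ Submodule.span (ZMod 3) {h} ⊔
        Submodule.span (ZMod 3) {b} : Submodule (ZMod 3) V) : Set V) := by
      have hbmem := Submodule.mem_span_singleton_self (R := ZMod 3) b
      have hhmem := Submodule.mem_span_singleton_self (R := ZMod 3) h
      have hQ : ∀ v ∈ H', b + v ∈ B → v ∈ P ⊔ Submodule.span (ZMod 3) {h} := by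
        intro v hv hvB
        rcases hfcases v with h1 | h1 | h1
        · exact Submodule.mem_sup_left ⟨⟨hv, h1⟩, hvB⟩
        · have hk : v + -h ∈ H' ⊓ LinearMap.ker f := by
            refine ⟨H'.add_mem hv (H'.neg_mem hhH'), ?_⟩
            show f (v + -h) = 0
            rw [map_add, map_neg, h1, add_neg_cancel]
          have h2 : b + -(v + -h) ∈ B := A10 _ hk (by
            have e : h + (v + -h) = v := by abel
            rw [e]; exact hvB)
          have h3 : -(v + -h) ∈ P := ⟨Submodule.neg_mem _ hk, h2⟩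
          have h4 : v + -h ∈ P := by
            have := P.neg_mem h3
            rwa [neg_neg] at this
          have h5 := Submodule.add_mem (P ⊔ Submodule.span (ZMod 3) {h})
            (Submodule.mem_sup_left h4) (Submodule.mem_sup_right hhmem)
          rwa [neg_add_cancel_right] at h5
        · have hk : v + h ∈ H' ⊓ LinearMap.ker f := by
            refine ⟨H'.add_mem hv hhH', ?_⟩
            show f (v + h) = 0
            rw [map_add, h1, neg_add_cancel]
          have h2 : b + -(v + h) ∈ B := A20 _ hk (by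
            have e : -h + (v + h) = v := by abel
            rw [e]; exact hvB)
          have h3 : -(v + h) ∈ P := ⟨Submodule.neg_mem _ hk, h2⟩
          have h4 : v + h ∈ P := by
            have := P.neg_mem h3
            rwa [neg_neg] at this
          have h5 := Submodule.sub_mem (P ⊔ Submodule.span (ZMod 3) {h})
            (Submodule.mem_sup_left h4) (Submodule.mem_sup_right hhmem)
          rwa [add_sub_cancel_right] at h5
      rintro v ⟨hvB, hvH⟩
      rcases hdec v hvH with h1 | h1 | h1
      · -- blue vectors of the smaller space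
        have hfv : f v = 0 := by
          have := hfker (Submodule.subset_span ⟨hvB, h1⟩)
          rwa [LinearMap.mem_ker] at this
        refine Submodule.mem_sup_left (Submodule.mem_sup_left ⟨⟨h1, hfv⟩, ?_⟩)
        by_contra hcon
        have hr1 : b + v ∈ R := (hcov _ (hbne v h1)).resolve_right hcon
        have hr2 : b - v ∈ R := by
          rw [sub_eq_add_neg]
          refine (hcov _ (hbne _ (H'.neg_mem h1))).resolve_right (fun h2 => hcon ?_)
          have := hneg (-v) (Submodule.neg_mem _ ⟨h1, hfv⟩) h2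
          rwa [neg_neg] at this
        exact rule2 v hvB b hb hr1 hr2
      · have h2 := hQ _ h1 (by rwa [add_sub_cancel])
        have h3 := Submodule.add_mem (P ⊔ Submodule.span (ZMod 3) {h} ⊔
          Submodule.span (ZMod 3) {b}) (Submodule.mem_sup_left h2) (Submodule.mem_sup_right hbmem)
        rwa [sub_add_cancel] at h3
      · have h2 := hQ _ (H'.neg_mem h1) (by
          have e : b + -(v + b) = -v := by abel
          rw [e]; exact hB _ hvB)
        have h3 := Submodule.add_mem (P ⊔ Submodule.span (ZMod 3) {h} ⊔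
          Submodule.span (ZMod 3) {b}) (Submodule.mem_sup_left h2) (Submodule.mem_sup_right hbmem)
        have e : -(v + b) + b = -v := by abel
        rw [e] at h3
        have h4 := Submodule.neg_mem _ h3
        rwa [neg_neg] at h4
    have hHle : H ≤ P ⊔ Submodule.span (ZMod 3) {h} ⊔ Submodule.span (ZMod 3) {b} := by
      conv_lhs => rw [← hBH]
      rw [Submodule.span_le]
      exact hBsub
    -- the kernel is contained in `P`
    have hKP : ∀ k ∈ H' ⊓ LinearMap.ker f, k ∈ P := by
      intro k hk
      have h1 := hHle (hH'le hk.1)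
      rw [Submodule.mem_sup] at h1
      obtain ⟨w, hw, z, hz, hwz⟩ := h1
      rw [Submodule.mem_sup] at hw
      obtain ⟨u, hu, z', hz', hwz'⟩ := hw
      rw [Submodule.mem_span_singleton] at hz hz'
      obtain ⟨c, rfl⟩ := hz
      obtain ⟨c', rfl⟩ := hz'
      have huP : u ∈ H' ⊓ LinearMap.ker f := (hPmem.mp hu).1
      have hc0 : c = 0 := by
        by_contra hc
        apply hbH'
        have h4 : c • b ∈ H' := by
          have : c • b = k - (u + c' • h) := by rw [← hwz, ← hwz', add_sub_cancel_left]
          rw [this]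
          exact H'.sub_mem hk.1 (H'.add_mem huP.1 (H'.smul_mem _ hhH'))
        have h5 := H'.smul_mem c⁻¹ h4
        rwa [smul_smul, inv_mul_cancel₀ hc, one_smul] at h5
      rw [hc0, zero_smul, add_zero] at hwz
      have hc'0 : c' = 0 := by
        have h5 : f k = f u + c' * f h := by
          rw [← hwz, ← hwz', map_add, map_smul, smul_eq_mul]
        rw [hfK hk, hfK huP, zero_add] at h5
        rcases mul_eq_zero.mp h5.symm with h6 | h6
        · exact h6
        · exact absurd h6 hfh
      rw [hc'0, zero_smul, add_zero] at hwz'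
      rw [← hwz, ← hwz']
      exact hu
    apply hrB
    intro v hv
    rcases hfcases v with h1 | h1 | h1
    · exact (hPmem.mp (hKP v ⟨hv, h1⟩)).2
    · have hk : -(v + -h) ∈ H' ⊓ LinearMap.ker f := by
        refine Submodule.neg_mem _ ⟨H'.add_mem hv (H'.neg_mem hhH'), ?_⟩
        show f (v + -h) = 0
        rw [map_add, map_neg, h1, add_neg_cancel]
      have h2 := A01 _ hk (hPmem.mp (hKP _ hk)).2
      have e : h + - -(v + -h) = v := by abel
      rwa [e] at h2
    · have hk : -(v + h) ∈ H' ⊓ LinearMap.ker f := by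
        refine Submodule.neg_mem _ ⟨H'.add_mem hv hhH', ?_⟩
        show f (v + h) = 0
        rw [map_add, h1, neg_add_cancel]
      have h2 := A02 _ hk (hPmem.mp (hKP _ hk)).2
      have e : -h + - -(v + h) = v := by abel
      rwa [e] at h2

/-- The two-two case: subspaces missing the two sets whose dimensions add up to the full
dimension. -/
theorem target_subspaces (R B : Set V) (h0R : (0 : V) ∉ R) (h0B : (0 : V) ∉ B)
    (hcov : ∀ v : V, v ≠ 0 → v ∈ R ∨ v ∈ B) (hRB : ∀ v ∈ R, v ∉ B)
    (hR : ∀ v ∈ R, -v ∈ R) (hB : ∀ v ∈ B, -v ∈ B)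
    (hno : ∀ u ∈ R, ∀ v ∈ R, u + v ∈ B → u - v ∈ B → False) (n : ℕ) :
    ∀ H : Submodule (ZMod 3) V, finrank (ZMod 3) H = n →
      ∃ S S' : Submodule (ZMod 3) V, S ≤ H ∧ S' ≤ H ∧ (∀ u ∈ S, u ∉ R) ∧ (∀ u ∈ S', u ∉ B) ∧
        n ≤ finrank (ZMod 3) S + finrank (ZMod 3) S' := by
  classical
  induction n using Nat.strong_induction_on with
  | _ n ih =>
  intro H hn
  by_cases hbot : H = ⊥
  · refine ⟨⊥, ⊥, bot_le, bot_le, ?_, ?_, ?_⟩
    · intro u hu; rw [(Submodule.mem_bot _).mp hu]; exact h0R
    · intro u hu; rw [(Submodule.mem_bot _).mp hu]; exact h0B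
    · rw [hbot, finrank_bot] at hn; omega
  -- one step for a set `A` not spanning `H`
  have step : ∀ A : Set V, Submodule.span (ZMod 3) (A ∩ H) ≠ H →
      ∃ (x : V) (H0 : Submodule (ZMod 3) V), x ∈ H ∧ H0 ≤ H ∧ finrank (ZMod 3) H0 < n ∧
        n ≤ finrank (ZMod 3) H0 + 1 ∧
        ∀ S ≤ H0, (∀ u ∈ S, u ∉ A) → (∀ u ∈ S ⊔ Submodule.span (ZMod 3) {x}, u ∉ A) ∧
          finrank (ZMod 3) (S ⊔ Submodule.span (ZMod 3) {x} : Submodule (ZMod 3) V)
            = finrank (ZMod 3) S + 1 := by
    intro A hA
    obtain ⟨x, hxH, hx⟩ : ∃ x ∈ H, x ∉ Submodule.span (ZMod 3) (A ∩ (H : Set V)) := by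
      by_contra hcon
      push Not at hcon
      apply hA
      refine le_antisymm ?_ hcon
      rw [Submodule.span_le]
      exact Set.inter_subset_right
    obtain ⟨f, hfx, hfker⟩ := Submodule.exists_le_ker_of_notMem hx
    have hlt : H ⊓ LinearMap.ker f < H := by
      refine lt_of_le_of_ne inf_le_left (fun h => hfx ?_)
      have : x ∈ H ⊓ LinearMap.ker f := by rw [h]; exact hxH
      exact this.2
    refine ⟨x, H ⊓ LinearMap.ker f, hxH, inf_le_left, ?_, ?_, ?_⟩
    · rw [← hn]; exact Submodule.finrank_lt_finrank_of_lt hlt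
    · have h1 := Submodule.finrank_sup_add_finrank_inf_eq (H ⊓ LinearMap.ker f)
        (Submodule.span (ZMod 3) {x})
      have hx0 : x ≠ 0 := by rintro rfl; exact hfx (map_zero f)
      have h2 : H ≤ (H ⊓ LinearMap.ker f) ⊔ Submodule.span (ZMod 3) {x} := by
        intro v hv
        rw [Submodule.mem_sup]
        refine ⟨v - (f v * (f x)⁻¹) • x, ⟨H.sub_mem hv (H.smul_mem _ hxH), ?_⟩,
          (f v * (f x)⁻¹) • x, ?_, ?_⟩
        · show f (v - (f v * (f x)⁻¹) • x) = 0
          rw [map_sub, map_smul, smul_eq_mul, mul_assoc, inv_mul_cancel₀ hfx, mul_one, sub_self]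
        · exact Submodule.smul_mem _ _ (Submodule.mem_span_singleton_self x)
        · rw [sub_add_cancel]
      have h3 := Submodule.finrank_mono h2
      rw [finrank_span_singleton hx0] at h1
      omega
    · intro S hS hSA
      have hx0 : x ≠ 0 := by rintro rfl; exact hfx (map_zero f)
      have hxS : x ∉ S := fun h => hfx (hS h).2
      constructor
      · intro u hu huA
        rw [Submodule.mem_sup] at hu
        obtain ⟨s, hs, z, hz, rfl⟩ := hu
        rw [Submodule.mem_span_singleton] at hz
        obtain ⟨c, rfl⟩ := hz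
        by_cases hc : c = 0
        · rw [hc, zero_smul, add_zero] at huA
          exact hSA s hs huA
        · have hmem : s + c • x ∈ H := H.add_mem (hS hs).1 (H.smul_mem _ hxH)
          have h1 := hfker (Submodule.subset_span ⟨huA, hmem⟩)
          rw [LinearMap.mem_ker, map_add, map_smul, smul_eq_mul] at h1
          have h2 : f s = 0 := (hS hs).2
          rw [h2, zero_add] at h1
          rcases mul_eq_zero.mp h1 with h3 | h3
          · exact hc h3
          · exact hfx h3
      · have h1 := Submodule.finrank_sup_add_finrank_inf_eq S (Submodule.span (ZMod 3) {x})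
        have h2 : S ⊓ Submodule.span (ZMod 3) {x} = ⊥ := by
          rw [← disjoint_iff, Submodule.disjoint_span_singleton' hx0]
          exact hxS
        rw [h2, finrank_bot, finrank_span_singleton hx0] at h1
        omega
  by_cases hsR : Submodule.span (ZMod 3) (R ∩ (H : Set V)) = H
  · have hsB : Submodule.span (ZMod 3) (B ∩ (H : Set V)) ≠ H := fun h =>
      not_both_span R B h0R h0B hcov hRB hR hB hno n H hn hbot hsR h
    obtain ⟨x, H0, hxH, hH0, hlt, hge, hstep⟩ := step B hsB
    obtain ⟨S, S', hS, hS', hSR, hSB, hsum⟩ := ih _ hlt H0 rfl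
    obtain ⟨h1, h2⟩ := hstep S' hS' hSB
    refine ⟨S, S' ⊔ Submodule.span (ZMod 3) {x}, hS.trans hH0, ?_, hSR, h1, ?_⟩
    · refine sup_le (hS'.trans hH0) ?_
      rw [Submodule.span_singleton_le_iff_mem]
      exact hxH
    · omega
  · obtain ⟨x, H0, hxH, hH0, hlt, hge, hstep⟩ := step R hsR
    obtain ⟨S, S', hS, hS', hSR, hSB, hsum⟩ := ih _ hlt H0 rfl
    obtain ⟨h1, h2⟩ := hstep S hS hSR
    refine ⟨S ⊔ Submodule.span (ZMod 3) {x}, S', ?_, hS'.trans hH0, h1, hSB, ?_⟩
    · refine sup_le (hS.trans hH0) ?_
      rw [Submodule.span_singleton_le_iff_mem]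
      exact hxH
    · omega

end Pool.Agent.H35.KP
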